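import Mathlib

/-!
# The algebra behind the Levi form computation
-/

set_option autoImplicit false

namespace Pool.Agent.Helper53.Worm

lemma levi_E_nonneg (x v l0 l1 l2 e0 e1 e2 : ℝ)
    (hbd : 2 * x + l0 + e0 = 0) (hl0 : 0 ≤ l0) (hl1 : 0 ≤ l1) (hl2 : 0 ≤ l2) (he0 : 0 ≤ e0)
    (he2 : 0 ≤ e2) (hA : 2 * |e1| ≤ l0 + e0 + e2) :
    0 ≤ (l0 + e0 + e2) * ((1 + l1 * x) ^ 2 + (l1 * v) ^ 2)
      + (x ^ 2 + v ^ 2) * l2 * (2 * v + e1) ^ 2 + l1 * e1 * (2 * v + e1) := by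
  set A := l0 + e0 + e2 with hAdef
  have hA0 : 0 ≤ A := by positivity
  set X := x ^ 2 + v ^ 2 with hX
  have hX0 : 0 ≤ X := by positivity
  rcases eq_or_lt_of_le hX0 with hX1 | hX1
  · have hx : x = 0 := by nlinarith [sq_nonneg x, sq_nonneg v]
    have hv : v = 0 := by nlinarith [sq_nonneg x, sq_nonneg v]
    subst hx hv
    have : 0 ≤ l1 * e1 ^ 2 := by positivity
    nlinarith
  · set L := X * l1 with hL
    have hL0 : 0 ≤ L := by positivity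
    have key : 0 ≤ A * ((x + L) ^ 2 + v ^ 2) + X ^ 2 * l2 * (2 * v + e1) ^ 2
        + L * e1 * (2 * v + e1) := by
      have h3 : 0 ≤ X ^ 2 * l2 * (2 * v + e1) ^ 2 := by positivity
      rcases le_or_gt L A with hLA | hLA
      · have h4 : L * v ^ 2 ≤ A * v ^ 2 := by nlinarith [sq_nonneg v]
        have h5 : 0 ≤ A * (x + L) ^ 2 := by positivity
        have h6 : 0 ≤ L * (v + e1) ^ 2 := by positivity
        nlinarith
      · have h4 : L / 2 ≤ x + L := by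
          have : x = -(l0 + e0) / 2 := by linarith
          linarith
        have h5 : (L / 2) ^ 2 ≤ (x + L) ^ 2 := by
          apply pow_le_pow_left₀ (by positivity) h4
        have h6 : A * ((L / 2) ^ 2 + v ^ 2) ≤ A * ((x + L) ^ 2 + v ^ 2) := by
          apply mul_le_mul_of_nonneg_left _ hA0
          linarith
        have h7 : A * (L * |v|) ≤ A * ((L / 2) ^ 2 + v ^ 2) := by
          apply mul_le_mul_of_nonneg_left _ hA0
          nlinarith [sq_nonneg (L / 2 - |v|), sq_abs v]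
        have h8 : -(2 * (|v| * |e1|)) ≤ 2 * v * e1 := by
          have := neg_abs_le (v * e1)
          rw [abs_mul] at this
          linarith
        have h9 : 2 * |e1| * (L * |v|) ≤ A * (L * |v|) := by
          apply mul_le_mul_of_nonneg_right hA (by positivity)
        have h10 : L * (-(2 * (|v| * |e1|))) ≤ L * (2 * v * e1) :=
          mul_le_mul_of_nonneg_left h8 hL0
        have h11 : 0 ≤ L * e1 ^ 2 := by positivity
        nlinarith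
    have hid : X * ((l0 + e0 + e2) * ((1 + l1 * x) ^ 2 + (l1 * v) ^ 2)
        + X * l2 * (2 * v + e1) ^ 2 + l1 * e1 * (2 * v + e1))
        = A * ((x + L) ^ 2 + v ^ 2) + X ^ 2 * l2 * (2 * v + e1) ^ 2
        + L * e1 * (2 * v + e1) := by
      have hid2 : X * ((1 + l1 * x) ^ 2 + (l1 * v) ^ 2) = (x + L) ^ 2 + v ^ 2 := by
        rw [hL, hX]; ring
      rw [← hAdef, ← hid2, hL]; ring
    rw [← hid] at key
    exact nonneg_of_mul_nonneg_right key hX1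

lemma levi_algebra (x v W1 W2 β γ l0 l1 l2 e0 e1 e2 : ℝ)
    (hbd : 2 * x + l0 + e0 = 0) (hl0 : 0 ≤ l0) (hl1 : 0 ≤ l1) (hl2 : 0 ≤ l2) (he0 : 0 ≤ e0)
    (he2 : 0 ≤ e2) (hA : 2 * |e1| ≤ l0 + e0 + e2)
    (hne : 1 + l1 * x ≠ 0 ∨ l1 * v ≠ 0 ∨ 2 * v + e1 ≠ 0)
    (h1 : (1 + l1 * x) * W1 + l1 * v * W2 + (2 * v + e1) * β = 0)
    (h2 : (1 + l1 * x) * W2 - l1 * v * W1 + (2 * v + e1) * γ = 0) :
    0 ≤ 2 * (W2 * β - W1 * γ) - 2 * x * (β ^ 2 + γ ^ 2)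
      + ((x ^ 2 + v ^ 2) * l2 + l1) * (W1 ^ 2 + W2 ^ 2) + e2 * (β ^ 2 + γ ^ 2) := by
  have hE := levi_E_nonneg x v l0 l1 l2 e0 e1 e2 hbd hl0 hl1 hl2 he0 he2 hA
  set a := 1 + l1 * x with ha
  set b := l1 * v with hb
  set P := 2 * v + e1 with hP
  by_cases hD : a ^ 2 + b ^ 2 = 0
  · have ha0 : a = 0 := by nlinarith [sq_nonneg a, sq_nonneg b]
    have hb0 : b = 0 := by nlinarith [sq_nonneg a, sq_nonneg b]
    have hP0 : P ≠ 0 := by
      rcases hne with h | h | h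
      · exact absurd ha0 h
      · exact absurd hb0 h
      · exact h
    have hβ : β = 0 := by
      rw [ha0, hb0] at h1
      have : P * β = 0 := by linarith
      exact (mul_eq_zero.mp this).resolve_left hP0
    have hγ : γ = 0 := by
      rw [ha0, hb0] at h2
      have : P * γ = 0 := by linarith
      exact (mul_eq_zero.mp this).resolve_left hP0
    rw [hβ, hγ]
    have : 0 ≤ ((x ^ 2 + v ^ 2) * l2 + l1) * (W1 ^ 2 + W2 ^ 2) := by positivity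
    nlinarith
  · have hDpos : 0 < a ^ 2 + b ^ 2 := lt_of_le_of_ne (by positivity) (Ne.symm hD)
    have e1' : (a ^ 2 + b ^ 2) * W1 = -P * (a * β - b * γ) := by
      linear_combination a * h1 - b * h2
    have e2' : (a ^ 2 + b ^ 2) * W2 = -P * (b * β + a * γ) := by
      linear_combination b * h1 + a * h2
    have e3 : (a ^ 2 + b ^ 2) * (W2 * β - W1 * γ) = -P * b * (β ^ 2 + γ ^ 2) := by
      linear_combination β * e2' - γ * e1'
    have e4 : (a ^ 2 + b ^ 2) * (W1 ^ 2 + W2 ^ 2) = P ^ 2 * (β ^ 2 + γ ^ 2) := by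
      have h3 : (a ^ 2 + b ^ 2) * ((a ^ 2 + b ^ 2) * (W1 ^ 2 + W2 ^ 2))
          = (a ^ 2 + b ^ 2) * (P ^ 2 * (β ^ 2 + γ ^ 2)) := by
        have : (a ^ 2 + b ^ 2) * ((a ^ 2 + b ^ 2) * (W1 ^ 2 + W2 ^ 2))
            = ((a ^ 2 + b ^ 2) * W1) ^ 2 + ((a ^ 2 + b ^ 2) * W2) ^ 2 := by ring
        rw [this, e1', e2']; ring
      exact mul_left_cancel₀ hD h3
    have key : 0 ≤ (a ^ 2 + b ^ 2) * (2 * (W2 * β - W1 * γ) - 2 * x * (β ^ 2 + γ ^ 2)
      + ((x ^ 2 + v ^ 2) * l2 + l1) * (W1 ^ 2 + W2 ^ 2) + e2 * (β ^ 2 + γ ^ 2)) := by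
      have h5 : (a ^ 2 + b ^ 2) * (2 * (W2 * β - W1 * γ) - 2 * x * (β ^ 2 + γ ^ 2)
          + ((x ^ 2 + v ^ 2) * l2 + l1) * (W1 ^ 2 + W2 ^ 2) + e2 * (β ^ 2 + γ ^ 2))
          = (β ^ 2 + γ ^ 2) * ((l0 + e0 + e2) * (a ^ 2 + b ^ 2)
            + (x ^ 2 + v ^ 2) * l2 * P ^ 2 + l1 * e1 * P) := by
        have hx : -(2 * x) = l0 + e0 := by linarith
        have h6 : -(2 * P * b) + l1 * P ^ 2 = l1 * e1 * P := by
          rw [hP, hb]; ring
        calc (a ^ 2 + b ^ 2) * (2 * (W2 * β - W1 * γ) - 2 * x * (β ^ 2 + γ ^ 2)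
              + ((x ^ 2 + v ^ 2) * l2 + l1) * (W1 ^ 2 + W2 ^ 2) + e2 * (β ^ 2 + γ ^ 2))
            = 2 * ((a ^ 2 + b ^ 2) * (W2 * β - W1 * γ))
              + (-(2 * x) + e2) * (β ^ 2 + γ ^ 2) * (a ^ 2 + b ^ 2)
              + ((x ^ 2 + v ^ 2) * l2 + l1) * ((a ^ 2 + b ^ 2) * (W1 ^ 2 + W2 ^ 2)) := by ring
          _ = 2 * (-P * b * (β ^ 2 + γ ^ 2))
              + (l0 + e0 + e2) * (β ^ 2 + γ ^ 2) * (a ^ 2 + b ^ 2)
              + ((x ^ 2 + v ^ 2) * l2 + l1) * (P ^ 2 * (β ^ 2 + γ ^ 2)) := by rw [e3, e4, hx]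
          _ = (β ^ 2 + γ ^ 2) * ((l0 + e0 + e2) * (a ^ 2 + b ^ 2)
              + (x ^ 2 + v ^ 2) * l2 * P ^ 2 + (-(2 * P * b) + l1 * P ^ 2)) := by ring
          _ = _ := by rw [h6]
      rw [h5]
      exact mul_nonneg (by positivity) hE
    exact nonneg_of_mul_nonneg_right key hDpos

end Pool.Agent.Helper53.Worm
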