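import Mathlib

/-!
# Blaschke-type uniqueness
-/

set_option autoImplicit false

open Filter Topology Set Metric ComplexConjugate

namespace Pool.Agent.Helper53.Worm

/-- Dividing out one zero by a Blaschke factor keeps the bound. -/
lemma exists_blaschke_quotient {F : ℂ → ℂ} {M : ℝ} (hd : DifferentiableOn ℂ F (ball 0 1))
    (hM : ∀ z ∈ ball (0 : ℂ) 1, ‖F z‖ ≤ M) {a : ℂ} (ha : a ∈ ball (0 : ℂ) 1) (hFa : F a = 0) :
    ∃ G : ℂ → ℂ, DifferentiableOn ℂ G (ball 0 1) ∧ (∀ z ∈ ball (0 : ℂ) 1, ‖G z‖ ≤ M) ∧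
      ∀ z ∈ ball (0 : ℂ) 1, F z * (1 - conj a * z) = (z - a) * G z := by
  set G : ℂ → ℂ := fun z => dslope F a z * (1 - conj a * z) with hG
  have hGd : DifferentiableOn ℂ G (ball 0 1) := by
    refine DifferentiableOn.mul ?_ (by fun_prop)
    exact (Complex.differentiableOn_dslope (isOpen_ball.mem_nhds ha)).mpr hd
  have hid : ∀ z, F z * (1 - conj a * z) = (z - a) * G z := by
    intro z
    have := sub_smul_dslope F a z
    rw [smul_eq_mul, hFa, sub_zero] at this
    rw [hG]
    simp only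
    rw [← mul_assoc, this]
  have ha1 : ‖a‖ < 1 := by simpa using ha
  have hM0 : 0 ≤ M := (norm_nonneg _).trans (hM 0 (mem_ball_self one_pos))
  refine ⟨G, hGd, ?_, fun z _ => hid z⟩
  intro z hz
  have hz1 : ‖z‖ < 1 := by simpa using hz
  have hbound : ∀ r : ℝ, ‖z‖ < r → ‖a‖ < r → r < 1 →
      ‖G z‖ ≤ M * (1 + (1 - r ^ 2) / (r - ‖a‖)) := by
    intro r hr1 hr2 hr3
    have hr0 : 0 < r := lt_of_le_of_lt (norm_nonneg _) hr1
    refine Complex.norm_le_of_forall_mem_frontier_norm_le (U := ball 0 r) isBounded_ball ?_ ?_ ?_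
    · refine DifferentiableOn.diffContOnCl ?_
      rw [closure_ball _ hr0.ne']
      exact hGd.mono (closedBall_subset_ball hr3)
    · intro w hw
      rw [frontier_ball _ hr0.ne', mem_sphere_zero_iff_norm] at hw
      have hw1 : w ∈ ball (0 : ℂ) 1 := by
        rw [mem_ball_zero_iff, hw]; exact hr3
      have hwa : 0 < ‖w - a‖ := by
        have := norm_sub_norm_le w a
        rw [hw] at this
        linarith
      have h1 : ‖F w‖ * ‖1 - conj a * w‖ = ‖w - a‖ * ‖G w‖ := by
        rw [← norm_mul, hid, norm_mul]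
      have h2 : ‖1 - conj a * w‖ ≤ (1 - r ^ 2) + ‖w - a‖ := by
        have h3 : (1 : ℂ) - conj a * w = ((1 - r ^ 2 : ℝ) : ℂ) + w * conj (w - a) := by
          have h4 : w * conj w = ((r ^ 2 : ℝ) : ℂ) := by
            rw [Complex.mul_conj, Complex.normSq_eq_norm_sq, hw]
          rw [map_sub, mul_sub, h4]
          push_cast
          ring
        rw [h3]
        refine (norm_add_le _ _).trans ?_
        rw [norm_mul, RCLike.norm_conj, Complex.norm_real, Real.norm_eq_abs,
          abs_of_nonneg (by nlinarith), hw]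
        have : r * ‖w - a‖ ≤ 1 * ‖w - a‖ := mul_le_mul_of_nonneg_right hr3.le hwa.le
        linarith
      have h5 : r - ‖a‖ ≤ ‖w - a‖ := by
        have := norm_sub_norm_le w a
        rw [hw] at this
        exact this
      have h6 : ‖w - a‖ * ‖G w‖ ≤ ‖w - a‖ * (M * (1 + (1 - r ^ 2) / (r - ‖a‖))) := by
        rw [← h1]
        have h7 : ‖F w‖ * ‖1 - conj a * w‖ ≤ M * ((1 - r ^ 2) + ‖w - a‖) :=
          mul_le_mul (hM w hw1) h2 (norm_nonneg _) hM0
        refine h7.trans ?_
        have h8 : 1 - r ^ 2 ≤ ‖w - a‖ * ((1 - r ^ 2) / (r - ‖a‖)) := by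
          have h9 : 0 < r - ‖a‖ := by linarith
          have h10 : 0 ≤ 1 - r ^ 2 := by nlinarith
          calc 1 - r ^ 2 = (r - ‖a‖) * ((1 - r ^ 2) / (r - ‖a‖)) := by field_simp
            _ ≤ ‖w - a‖ * ((1 - r ^ 2) / (r - ‖a‖)) :=
              mul_le_mul_of_nonneg_right h5 (by positivity)
        nlinarith
      exact le_of_mul_le_mul_left h6 hwa
    · apply subset_closure
      simpa using hr1
  have hlim : Tendsto (fun r : ℝ => M * (1 + (1 - r ^ 2) / (r - ‖a‖))) (𝓝[<] 1) (𝓝 M) := by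
    have hc : ContinuousAt (fun r : ℝ => M * (1 + (1 - r ^ 2) / (r - ‖a‖))) 1 := by
      have : (1 : ℝ) - ‖a‖ ≠ 0 := by linarith
      fun_prop (disch := assumption)
    have h2 := hc.tendsto.mono_left (nhdsWithin_le_nhds (s := Iio 1))
    simpa using h2
  refine ge_of_tendsto hlim ?_
  have h1 : ∀ᶠ r : ℝ in 𝓝[<] 1, max ‖z‖ ‖a‖ < r := by
    have : Ioo (max ‖z‖ ‖a‖) 1 ∈ 𝓝[<] (1 : ℝ) := Ioo_mem_nhdsLT (max_lt hz1 ha1)
    filter_upwards [this] with r hr using hr.1
  filter_upwards [h1, self_mem_nhdsWithin] with r hr hr1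
  exact hbound r ((le_max_left _ _).trans_lt hr) ((le_max_right _ _).trans_lt hr) hr1

lemma norm_le_prod {s : Finset ℂ} : ∀ {F : ℂ → ℂ} {M : ℝ},
    DifferentiableOn ℂ F (ball 0 1) → (∀ z ∈ ball (0 : ℂ) 1, ‖F z‖ ≤ M) →
    (∀ a ∈ s, a ∈ ball (0 : ℂ) 1) → (∀ a ∈ s, F a = 0) → ‖F 0‖ ≤ M * ∏ a ∈ s, ‖a‖ := by
  classical
  induction s using Finset.induction_on with
  | empty =>
    intro F M _ hM _ _
    simpa using hM 0 (mem_ball_self one_pos)
  | insert a s has ih =>
    intro F M hd hM hs hz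
    obtain ⟨G, hGd, hGM, hG⟩ := exists_blaschke_quotient hd hM
      (hs a (Finset.mem_insert_self a s)) (hz a (Finset.mem_insert_self a s))
    have h1 := ih hGd hGM (fun b hb => hs b (Finset.mem_insert_of_mem hb)) (by
      intro b hb
      have h2 := hG b (hs b (Finset.mem_insert_of_mem hb))
      rw [hz b (Finset.mem_insert_of_mem hb), zero_mul] at h2
      have h3 : b - a ≠ 0 := by
        rw [sub_ne_zero]
        rintro rfl
        exact has hb
      exact (mul_eq_zero.mp h2.symm).resolve_left h3)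
    have h2 := hG 0 (mem_ball_self one_pos)
    rw [mul_zero, sub_zero, mul_one, zero_sub] at h2
    rw [h2, Finset.prod_insert has, norm_mul, norm_neg]
    calc ‖a‖ * ‖G 0‖ ≤ ‖a‖ * (M * ∏ b ∈ s, ‖b‖) :=
          mul_le_mul_of_nonneg_left h1 (norm_nonneg _)
      _ = M * (‖a‖ * ∏ b ∈ s, ‖b‖) := by ring

/-- A bounded holomorphic function on the disc vanishing on the points `1 - κ / m` (all large
`m`), with `Re κ > 0`, vanishes at the origin. -/
lemma eq_zero_of_zeros {F : ℂ → ℂ} {M : ℝ} (hd : DifferentiableOn ℂ F (ball 0 1))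
    (hM : ∀ z ∈ ball (0 : ℂ) 1, ‖F z‖ ≤ M) {κ : ℂ} (hκ : 0 < κ.re)
    (hz : ∀ m : ℕ, 0 < m → 1 - κ / m ∈ ball (0 : ℂ) 1 → F (1 - κ / m) = 0) : F 0 = 0 := by
  -- choose `m₀` with `m₀ ≥ |κ|² / Re κ`
  obtain ⟨m₀, hm₀⟩ := exists_nat_ge (Complex.normSq κ / κ.re)
  have hM0 : 0 ≤ M := (norm_nonneg _).trans (hM 0 (mem_ball_self one_pos))
  have hκ0 : κ ≠ 0 := by
    rintro rfl
    simp at hκ
  have hbd : ∀ m : ℕ, m₀ ≤ m → 0 < m → ‖1 - κ / m‖ ≤ Real.exp (-(κ.re / 2 * (1 / m))) := by
    intro m hm hm0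
    have hmpos : (0 : ℝ) < m := by exact_mod_cast hm0
    have h1 : Complex.normSq (1 - κ / m) ≤ 1 - κ.re / m := by
      have h2 : Complex.normSq (1 - κ / m) = 1 - 2 * κ.re / m + Complex.normSq κ / m ^ 2 := by
        have h3 : κ / m = ((m : ℝ)⁻¹ : ℝ) * κ := by
          push_cast
          rw [div_eq_mul_inv, mul_comm]
        rw [h3, Complex.normSq_apply, Complex.normSq_apply]
        simp only [Complex.sub_re, Complex.one_re, Complex.re_ofReal_mul, Complex.sub_im,
          Complex.one_im, Complex.im_ofReal_mul]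
        field_simp
        ring
      rw [h2]
      have h4 : Complex.normSq κ / m ^ 2 ≤ κ.re / m := by
        have h5 : Complex.normSq κ ≤ m * κ.re := by
          rw [div_le_iff₀ hκ] at hm₀
          refine hm₀.trans ?_
          apply mul_le_mul_of_nonneg_right _ hκ.le
          exact_mod_cast hm
        rw [div_le_div_iff₀ (by positivity) hmpos]
        nlinarith
      have h6 : 2 * κ.re / m = κ.re / m + κ.re / m := by ring
      rw [h6]
      linarith
    have h7 : ‖1 - κ / m‖ ^ 2 ≤ Real.exp (-(κ.re / 2 * (1 / m))) ^ 2 := by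
      rw [← Complex.normSq_eq_norm_sq, ← Real.exp_nat_mul]
      refine h1.trans ?_
      have := Real.add_one_le_exp (-(κ.re / m))
      refine le_trans (by linarith) (this.trans (Real.exp_le_exp.mpr (le_of_eq ?_)))
      push_cast
      ring
    exact le_of_sq_le_sq h7 (Real.exp_pos _).le
  have hlt : ∀ m : ℕ, m₀ ≤ m → 0 < m → 1 - κ / m ∈ ball (0 : ℂ) 1 := by
    intro m hm hm0
    rw [mem_ball_zero_iff]
    refine (hbd m hm hm0).trans_lt ?_
    have hmpos : (0 : ℝ) < m := by exact_mod_cast hm0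
    rw [Real.exp_lt_one_iff]
    have : 0 < κ.re / 2 * (1 / m) := by positivity
    linarith
  -- the bound for each `n`
  have hn : ∀ n : ℕ, ‖F 0‖ ≤ M * Real.exp (-(κ.re / 2 *
      ∑ i ∈ Finset.range n, (1 / ((i : ℝ) + 1)) - κ.re / 2 *
      ∑ i ∈ Finset.range m₀, (1 / ((i : ℝ) + 1)))) := by
    intro n
    rcases le_or_gt n m₀ with hnm | hnm
    · refine (hM 0 (mem_ball_self one_pos)).trans ?_
      have h1 : ∑ i ∈ Finset.range n, (1 / ((i : ℝ) + 1))
          ≤ ∑ i ∈ Finset.range m₀, (1 / ((i : ℝ) + 1)) := by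
        apply Finset.sum_le_sum_of_subset_of_nonneg
        · exact Finset.range_mono hnm
        · intro i _ _
          positivity
      have h2 : 1 ≤ Real.exp (-(κ.re / 2 *
          ∑ i ∈ Finset.range n, (1 / ((i : ℝ) + 1)) - κ.re / 2 *
          ∑ i ∈ Finset.range m₀, (1 / ((i : ℝ) + 1)))) := by
        apply Real.one_le_exp
        have := mul_le_mul_of_nonneg_left h1 (by positivity : (0:ℝ) ≤ κ.re / 2)
        linarith
      nlinarith
    · set s : Finset ℂ := (Finset.Ico m₀ n).image (fun i : ℕ => 1 - κ / ((i + 1 : ℕ) : ℂ)) with hs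
      have hinj : Set.InjOn (fun i : ℕ => 1 - κ / ((i + 1 : ℕ) : ℂ)) (Finset.Ico m₀ n) := by
        intro i _ j _ hij
        simp only at hij
        have hi : ((i + 1 : ℕ) : ℂ) ≠ 0 := by exact_mod_cast Nat.succ_ne_zero i
        have hj : ((j + 1 : ℕ) : ℂ) ≠ 0 := by exact_mod_cast Nat.succ_ne_zero j
        have h1 : κ / ((i + 1 : ℕ) : ℂ) = κ / ((j + 1 : ℕ) : ℂ) := by
          linear_combination -hij
        rw [div_eq_div_iff hi hj] at h1
        have h2 := mul_left_cancel₀ hκ0 h1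
        have h3 : j + 1 = i + 1 := by exact_mod_cast h2
        omega
      have h1 := norm_le_prod (s := s) hd hM (by
        intro a ha
        rw [hs, Finset.mem_image] at ha
        obtain ⟨i, hi, rfl⟩ := ha
        rw [Finset.mem_Ico] at hi
        exact hlt (i + 1) (by omega) (by omega)) (by
        intro a ha
        rw [hs, Finset.mem_image] at ha
        obtain ⟨i, hi, rfl⟩ := ha
        rw [Finset.mem_Ico] at hi
        exact hz (i + 1) (by omega) (hlt (i + 1) (by omega) (by omega)))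
      refine h1.trans (mul_le_mul_of_nonneg_left ?_ hM0)
      rw [hs, Finset.prod_image hinj]
      have h2 : ∏ i ∈ Finset.Ico m₀ n, ‖1 - κ / ((i + 1 : ℕ) : ℂ)‖
          ≤ ∏ i ∈ Finset.Ico m₀ n, Real.exp (-(κ.re / 2 * (1 / ((i : ℝ) + 1)))) := by
        apply Finset.prod_le_prod
        · intro i _
          exact norm_nonneg _
        · intro i hi
          rw [Finset.mem_Ico] at hi
          have := hbd (i + 1) (by omega) (by omega)
          push_cast at this ⊢
          exact this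
      refine h2.trans (le_of_eq ?_)
      rw [← Real.exp_sum, Finset.sum_neg_distrib, ← Finset.mul_sum,
        Finset.sum_Ico_eq_sub _ hnm.le, mul_sub]
  have hlim : Tendsto (fun n : ℕ => M * Real.exp (-(κ.re / 2 *
      ∑ i ∈ Finset.range n, (1 / ((i : ℝ) + 1)) - κ.re / 2 *
      ∑ i ∈ Finset.range m₀, (1 / ((i : ℝ) + 1))))) atTop (𝓝 (M * 0)) := by
    apply Tendsto.const_mul
    apply Real.tendsto_exp_neg_atTop_nhds_zero.comp
    apply tendsto_atTop_add_const_right
    exact (Real.tendsto_sum_range_one_div_nat_succ_atTop).const_mul_atTop (by positivity)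
  rw [mul_zero] at hlim
  have h0 : ‖F 0‖ ≤ 0 := ge_of_tendsto' hlim hn
  exact norm_le_zero_iff.mp h0

end Pool.Agent.Helper53.Worm
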