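import Pool.Agent.Helper53.Worm.Domain

/-!
# The domain is connected
-/

set_option autoImplicit false

open Filter Topology Set

namespace Pool.Agent.Helper53.Worm

lemma rho_neg_iff {z : Fin 2 → ℂ} : rho z < 0 ↔ z 1 ≠ 0 ∧ rho0 z < 0 := by
  constructor
  · intro h
    obtain ⟨h1, -, -, h2⟩ := of_rho_nonpos h.le
    exact ⟨h1, by rw [← h2]; exact h⟩
  · rintro ⟨h1, h2⟩
    have h4 : |th z| < 4 := by
      by_contra hcon
      exact absurd (rho0_pos (not_lt.mp hcon)) (not_lt.mpr h2.le)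
    have hone : chi z = 1 := by
      apply chi_eq_one
      have h6 := exp_neg_lt_normSq h1 h4
      have h7 : Real.exp (-5) ≤ Real.exp (-4) := Real.exp_le_exp.mpr (by norm_num)
      linarith
    rw [rho, hone]
    linarith

/-- The convex model. -/
noncomputable def F (p : ℂ × ℝ × ℝ) : ℝ :=
  -2 * p.1.re + g (Complex.normSq p.1 - 1) + (g (p.2.1 - 2) + g (-p.2.1 - 2))

lemma convexOn_F : ConvexOn ℝ Set.univ F := by
  refine ⟨convex_univ, ?_⟩
  intro p _ q _ a b ha hb hab
  have hg := convexOn_g.2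
  have h1 : g (Complex.normSq (a • p + b • q).1 - 1)
      ≤ a * g (Complex.normSq p.1 - 1) + b * g (Complex.normSq q.1 - 1) := by
    have h2 : Complex.normSq (a • p + b • q).1 - 1
        ≤ a * (Complex.normSq p.1 - 1) + b * (Complex.normSq q.1 - 1) := by
      have h3 : (a • p + b • q).1 = (a : ℂ) * p.1 + (b : ℂ) * q.1 := by
        simp
      rw [h3, Complex.normSq_apply, Complex.normSq_apply, Complex.normSq_apply]
      simp only [Complex.add_re, Complex.mul_re, Complex.ofReal_re, Complex.ofReal_im, zero_mul,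
        sub_zero, Complex.add_im, Complex.mul_im, add_zero]
      have hb' : b = 1 - a := by linarith
      subst hb'
      nlinarith [mul_nonneg (mul_nonneg ha hb) (sq_nonneg (p.1.re - q.1.re)),
        mul_nonneg (mul_nonneg ha hb) (sq_nonneg (p.1.im - q.1.im))]
    refine (monotone_g h2).trans ?_
    have := hg (Set.mem_univ (Complex.normSq p.1 - 1)) (Set.mem_univ (Complex.normSq q.1 - 1))
      ha hb hab
    simpa [smul_eq_mul] using this
  have h4 : g ((a • p + b • q).2.1 - 2) ≤ a * g (p.2.1 - 2) + b * g (q.2.1 - 2) := by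
    have h5 : (a • p + b • q).2.1 - 2 = a * (p.2.1 - 2) + b * (q.2.1 - 2) := by
      simp only [Prod.snd_add, Prod.smul_snd, Prod.fst_add, Prod.smul_fst, smul_eq_mul]
      linear_combination 2 * hab
    rw [h5]
    have := hg (Set.mem_univ (p.2.1 - 2)) (Set.mem_univ (q.2.1 - 2)) ha hb hab
    simpa [smul_eq_mul] using this
  have h6 : g (-(a • p + b • q).2.1 - 2) ≤ a * g (-p.2.1 - 2) + b * g (-q.2.1 - 2) := by
    have h5 : -(a • p + b • q).2.1 - 2 = a * (-p.2.1 - 2) + b * (-q.2.1 - 2) := by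
      simp only [Prod.snd_add, Prod.smul_snd, Prod.fst_add, Prod.smul_fst, smul_eq_mul]
      linear_combination 2 * hab
    rw [h5]
    have := hg (Set.mem_univ (-p.2.1 - 2)) (Set.mem_univ (-q.2.1 - 2)) ha hb hab
    simpa [smul_eq_mul] using this
  have h7 : (a • p + b • q).1.re = a * p.1.re + b * q.1.re := by
    simp
  simp only [F, smul_eq_mul]
  rw [h7]
  linarith

/-- The parametrisation of the domain by the convex model. -/
noncomputable def Phi (p : ℂ × ℝ × ℝ) : Fin 2 → ℂ :=
  ![-p.1 * Complex.exp ((p.2.1 : ℂ) * Complex.I),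
    Complex.exp (((p.2.1 / 2 : ℝ) : ℂ) + (p.2.2 : ℂ) * Complex.I)]

lemma continuous_Phi : Continuous Phi := by
  unfold Phi
  refine continuous_pi fun i => ?_
  fin_cases i
  · simp only [Fin.zero_eta, Matrix.cons_val_zero]
    fun_prop
  · simp only [Fin.mk_one, Matrix.cons_val_one]
    fun_prop

lemma th_Phi (p : ℂ × ℝ × ℝ) : th (Phi p) = p.2.1 := by
  have h : ‖Phi p 1‖ = Real.exp (p.2.1 / 2) := by
    simp only [Phi, Matrix.cons_val_one, Matrix.cons_val_fin_one]
    rw [Complex.norm_exp]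
    simp
  rw [th, Complex.normSq_eq_norm_sq, h, Real.log_pow, Real.log_exp]
  push_cast
  ring

lemma Phi_one_ne (p : ℂ × ℝ × ℝ) : Phi p 1 ≠ 0 := by
  simp only [Phi, Matrix.cons_val_one, Matrix.cons_val_fin_one]
  exact Complex.exp_ne_zero _

lemma rho0_Phi (p : ℂ × ℝ × ℝ) : rho0 (Phi p) = F p := by
  have ht := th_Phi p
  have h0 : Phi p 0 = -p.1 * Complex.exp ((p.2.1 : ℂ) * Complex.I) := rfl
  have hn : Complex.normSq (Phi p 0) = Complex.normSq p.1 := by
    rw [Complex.normSq_eq_norm_sq, Complex.normSq_eq_norm_sq, h0, norm_mul,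
      Complex.norm_exp_ofReal_mul_I, norm_neg, mul_one]
  have hq : qr (Phi p) = -p.1.re := by
    have hcs := Real.cos_sq_add_sin_sq p.2.1
    rw [qr, ht, h0, Complex.exp_mul_I, ← Complex.ofReal_cos, ← Complex.ofReal_sin]
    simp only [Complex.mul_re, Complex.mul_im, Complex.neg_re, Complex.neg_im, Complex.add_re,
      Complex.add_im, Complex.ofReal_re, Complex.ofReal_im, Complex.I_re, Complex.I_im]
    linear_combination (-p.1.re) * hcs
  rw [rho0, ht, hn, hq, F]
  ring

lemma exists_Phi {z : Fin 2 → ℂ} (hz : z 1 ≠ 0) : ∃ p, Phi p = z := by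
  refine ⟨(-z 0 * Complex.exp (-(th z : ℂ) * Complex.I), th z, (z 1).arg), ?_⟩
  funext i
  fin_cases i
  · simp only [Phi, Fin.zero_eta, Matrix.cons_val_zero]
    have : Complex.exp (-(th z : ℂ) * Complex.I) * Complex.exp ((th z : ℂ) * Complex.I) = 1 := by
      rw [← Complex.exp_add]
      simp
    linear_combination (z 0) * this
  · simp only [Phi, Fin.mk_one, Matrix.cons_val_one, Matrix.cons_val_fin_one]
    rw [Complex.exp_add]
    have h1 : Complex.exp (((th z / 2 : ℝ) : ℂ)) = (‖z 1‖ : ℂ) := by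
      rw [← Complex.ofReal_exp]
      congr 1
      rw [th, Complex.normSq_eq_norm_sq, Real.log_pow]
      push_cast
      rw [mul_div_cancel_left₀ _ (two_ne_zero), Real.exp_log (norm_pos_iff.mpr hz)]
    rw [h1]
    exact Complex.norm_mul_exp_arg_mul_I (z 1)

lemma Om_eq_image : Om = Phi '' {p | F p < 0} := by
  ext z
  constructor
  · intro hz
    obtain ⟨h1, h2⟩ := rho_neg_iff.mp hz
    obtain ⟨p, rfl⟩ := exists_Phi h1
    exact ⟨p, by rw [Set.mem_ofPred_eq, ← rho0_Phi]; exact h2, rfl⟩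
  · rintro ⟨p, hp, rfl⟩
    exact rho_neg_iff.mpr ⟨Phi_one_ne p, by rw [rho0_Phi]; exact hp⟩

lemma isConnected_Om : IsConnected Om := by
  rw [Om_eq_image]
  have hconv : Convex ℝ {p : ℂ × ℝ × ℝ | F p < 0} := by
    have := convexOn_F.convex_lt 0
    simpa using this
  have hne : ({p : ℂ × ℝ × ℝ | F p < 0}).Nonempty := by
    refine ⟨(1, 0, 0), ?_⟩
    simp only [Set.mem_ofPred_eq, F]
    rw [g_of_nonpos (y := Complex.normSq 1 - 1) (by simp), g_of_nonpos (y := (0 : ℝ) - 2) (by norm_num),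
      g_of_nonpos (y := -(0 : ℝ) - 2) (by norm_num)]
    norm_num
  exact (hconv.isConnected hne).image Phi continuous_Phi.continuousOn

end Pool.Agent.Helper53.Worm
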