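import Pool.Agent.Helper53.Worm.G
import Pool.Agent.Helper53.Worm.Algebra

/-!
# The defining function and its directional derivatives
-/

set_option autoImplicit false

open Filter Topology

namespace Pool.Agent.Helper53.Worm

/-- The angle `θ = log |z₂|²`. -/
noncomputable def th (z : Fin 2 → ℂ) : ℝ := Real.log (Complex.normSq (z 1))

/-- Real part of `q = z₁ e^{-iθ}`. -/
noncomputable def qr (z : Fin 2 → ℂ) : ℝ :=
  (z 0).re * Real.cos (th z) + (z 0).im * Real.sin (th z)

/-- Imaginary part of `q = z₁ e^{-iθ}`. -/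
noncomputable def qi (z : Fin 2 → ℂ) : ℝ :=
  -(z 0).re * Real.sin (th z) + (z 0).im * Real.cos (th z)

/-- The defining function, away from `z₂ = 0`. -/
noncomputable def rho0 (z : Fin 2 → ℂ) : ℝ :=
  2 * qr z + g (Complex.normSq (z 0) - 1) + (g (th z - 2) + g (-th z - 2))

noncomputable def th1 (y w : Fin 2 → ℂ) : ℝ :=
  2 * (((y 1).re * (w 1).re + (y 1).im * (w 1).im) / Complex.normSq (y 1))

noncomputable def th2 (y w : Fin 2 → ℂ) : ℝ :=
  2 * ((Complex.normSq (w 1) * Complex.normSq (y 1)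
    - ((y 1).re * (w 1).re + (y 1).im * (w 1).im)
      * (2 * ((y 1).re * (w 1).re + (y 1).im * (w 1).im))) / Complex.normSq (y 1) ^ 2)

noncomputable def qr1 (y w : Fin 2 → ℂ) : ℝ :=
  (w 0).re * Real.cos (th y) + (w 0).im * Real.sin (th y) + qi y * th1 y w

noncomputable def qi1 (y w : Fin 2 → ℂ) : ℝ :=
  -(w 0).re * Real.sin (th y) + (w 0).im * Real.cos (th y) - qr y * th1 y w

/-- First derivative of `rho0` at `y` in the direction `w`. -/
noncomputable def D (y w : Fin 2 → ℂ) : ℝ :=
  2 * qr1 y w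
    + g1 (Complex.normSq (y 0) - 1) * (2 * ((y 0).re * (w 0).re + (y 0).im * (w 0).im))
    + (g1 (th y - 2) - g1 (-th y - 2)) * th1 y w

/-- Second derivative of `rho0` at `y` in the direction `w`. -/
noncomputable def S (y w : Fin 2 → ℂ) : ℝ :=
  2 * ((-(w 0).re * Real.sin (th y) + (w 0).im * Real.cos (th y)) * th1 y w
      + (qi1 y w * th1 y w + qi y * th2 y w))
    + (g2 (Complex.normSq (y 0) - 1) * (2 * ((y 0).re * (w 0).re + (y 0).im * (w 0).im)) ^ 2
      + g1 (Complex.normSq (y 0) - 1) * (2 * Complex.normSq (w 0)))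
    + ((g2 (th y - 2) + g2 (-th y - 2)) * th1 y w ^ 2
      + (g1 (th y - 2) - g1 (-th y - 2)) * th2 y w)

section line

variable (y w : Fin 2 → ℂ)

lemma hasDerivAt_re (i : Fin 2) :
    HasDerivAt (fun t : ℝ => ((y + t • w) i).re) (w i).re 0 := by
  have h : HasDerivAt (fun t : ℝ => (y i).re + t * (w i).re) (w i).re 0 := by
    simpa using ((hasDerivAt_id (0 : ℝ)).mul_const (w i).re).const_add (y i).re
  refine h.congr_of_eventuallyEq (Eventually.of_forall fun t => ?_)
  simp

lemma hasDerivAt_im (i : Fin 2) :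
    HasDerivAt (fun t : ℝ => ((y + t • w) i).im) (w i).im 0 := by
  have h : HasDerivAt (fun t : ℝ => (y i).im + t * (w i).im) (w i).im 0 := by
    simpa using ((hasDerivAt_id (0 : ℝ)).mul_const (w i).im).const_add (y i).im
  refine h.congr_of_eventuallyEq (Eventually.of_forall fun t => ?_)
  simp

lemma hasDerivAt_normSq (i : Fin 2) :
    HasDerivAt (fun t : ℝ => Complex.normSq ((y + t • w) i))
      (2 * ((y i).re * (w i).re + (y i).im * (w i).im)) 0 := by
  have hr := hasDerivAt_re y w i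
  have hi := hasDerivAt_im y w i
  have h := (hr.mul hr).add (hi.mul hi)
  have he : (fun t : ℝ => Complex.normSq ((y + t • w) i)) =
      ((fun t : ℝ => ((y + t • w) i).re) * (fun t : ℝ => ((y + t • w) i).re)
      + (fun t : ℝ => ((y + t • w) i).im) * (fun t : ℝ => ((y + t • w) i).im)) := by
    funext t
    simp [Complex.normSq_apply]
  rw [he]
  refine h.congr_deriv ?_
  simp
  ring

lemma hasDerivAt_inner (i : Fin 2) :
    HasDerivAt (fun t : ℝ => (((y + t • w) i).re * (w i).re + ((y + t • w) i).im * (w i).im))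
      (Complex.normSq (w i)) 0 := by
  have h := ((hasDerivAt_re y w i).mul_const (w i).re).add
    ((hasDerivAt_im y w i).mul_const (w i).im)
  rw [Complex.normSq_apply]
  exact h

variable {y} (hy : y 1 ≠ 0)

include hy

lemma hasDerivAt_th : HasDerivAt (fun t : ℝ => th (y + t • w)) (th1 y w) 0 := by
  have h := (hasDerivAt_normSq y w 1).log (by simpa using hy)
  refine h.congr_deriv ?_
  simp [th1, mul_div_assoc]

lemma hasDerivAt_th1 : HasDerivAt (fun t : ℝ => th1 (y + t • w) w) (th2 y w) 0 := by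
  have h := ((hasDerivAt_inner y w 1).div (hasDerivAt_normSq y w 1) (by simpa using hy)).const_mul 2
  refine h.congr_deriv ?_
  simp [th2]

lemma hasDerivAt_cos : HasDerivAt (fun t : ℝ => Real.cos (th (y + t • w)))
    (-Real.sin (th y) * th1 y w) 0 := by
  have h := (hasDerivAt_th w hy).cos
  refine h.congr_deriv ?_
  simp

lemma hasDerivAt_sin : HasDerivAt (fun t : ℝ => Real.sin (th (y + t • w)))
    (Real.cos (th y) * th1 y w) 0 := by
  have h := (hasDerivAt_th w hy).sin
  refine h.congr_deriv ?_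
  simp

lemma hasDerivAt_qr : HasDerivAt (fun t : ℝ => qr (y + t • w)) (qr1 y w) 0 := by
  have h := ((hasDerivAt_re y w 0).mul (hasDerivAt_cos w hy)).add
    ((hasDerivAt_im y w 0).mul (hasDerivAt_sin w hy))
  refine h.congr_deriv ?_
  simp [qr1, qi]
  ring

lemma hasDerivAt_qi : HasDerivAt (fun t : ℝ => qi (y + t • w)) (qi1 y w) 0 := by
  have h := ((hasDerivAt_re y w 0).neg.mul (hasDerivAt_sin w hy)).add
    ((hasDerivAt_im y w 0).mul (hasDerivAt_cos w hy))
  refine h.congr_deriv ?_
  simp [qi1, qr]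
  ring

lemma hasDerivAt_rho0 : HasDerivAt (fun t : ℝ => rho0 (y + t • w)) (D y w) 0 := by
  have hq := (hasDerivAt_qr w hy).const_mul 2
  have hl : HasDerivAt (fun t : ℝ => g (Complex.normSq ((y + t • w) 0) - 1))
      (g1 (Complex.normSq (y 0) - 1) * (2 * ((y 0).re * (w 0).re + (y 0).im * (w 0).im))) 0 := by
    have h := (hasDerivAt_normSq y w 0).sub_const 1
    have h2 := (hasDerivAt_g (Complex.normSq ((y + (0:ℝ) • w) 0) - 1)).comp (0 : ℝ) h
    refine h2.congr_deriv ?_
    simp
  have he1 : HasDerivAt (fun t : ℝ => g (th (y + t • w) - 2))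
      (g1 (th y - 2) * th1 y w) 0 := by
    have h := (hasDerivAt_th w hy).sub_const 2
    have h2 := (hasDerivAt_g (th (y + (0:ℝ) • w) - 2)).comp (0 : ℝ) h
    refine h2.congr_deriv ?_
    simp
  have he2 : HasDerivAt (fun t : ℝ => g (-th (y + t • w) - 2))
      (-g1 (-th y - 2) * th1 y w) 0 := by
    have h := (hasDerivAt_th w hy).neg.sub_const 2
    have h2 := (hasDerivAt_g (-th (y + (0:ℝ) • w) - 2)).comp (0 : ℝ) h
    refine h2.congr_deriv ?_
    simp
  have h := (hq.add hl).add (he1.add he2)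
  refine h.congr_deriv ?_
  simp only [D]
  ring

lemma hasDerivAt_D : HasDerivAt (fun t : ℝ => D (y + t • w) w) (S y w) 0 := by
  have hqr1 : HasDerivAt (fun t : ℝ => qr1 (y + t • w) w)
      ((-(w 0).re * Real.sin (th y) + (w 0).im * Real.cos (th y)) * th1 y w
      + (qi1 y w * th1 y w + qi y * th2 y w)) 0 := by
    have h := (((hasDerivAt_cos w hy).const_mul (w 0).re).add
      ((hasDerivAt_sin w hy).const_mul (w 0).im)).add
      ((hasDerivAt_qi w hy).mul (hasDerivAt_th1 w hy))
    refine h.congr_deriv ?_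
    simp
    ring
  have hl : HasDerivAt (fun t : ℝ => g1 (Complex.normSq ((y + t • w) 0) - 1))
      (g2 (Complex.normSq (y 0) - 1) * (2 * ((y 0).re * (w 0).re + (y 0).im * (w 0).im))) 0 := by
    have h := (hasDerivAt_normSq y w 0).sub_const 1
    have h2 := (hasDerivAt_g1 (Complex.normSq ((y + (0:ℝ) • w) 0) - 1)).comp (0 : ℝ) h
    refine h2.congr_deriv ?_
    simp
  have hl2 := hl.mul ((hasDerivAt_inner y w 0).const_mul 2)
  have he1 : HasDerivAt (fun t : ℝ => g1 (th (y + t • w) - 2))
      (g2 (th y - 2) * th1 y w) 0 := by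
    have h := (hasDerivAt_th w hy).sub_const 2
    have h2 := (hasDerivAt_g1 (th (y + (0:ℝ) • w) - 2)).comp (0 : ℝ) h
    refine h2.congr_deriv ?_
    simp
  have he2 : HasDerivAt (fun t : ℝ => g1 (-th (y + t • w) - 2))
      (-g2 (-th y - 2) * th1 y w) 0 := by
    have h := (hasDerivAt_th w hy).neg.sub_const 2
    have h2 := (hasDerivAt_g1 (-th (y + (0:ℝ) • w) - 2)).comp (0 : ℝ) h
    refine h2.congr_deriv ?_
    simp
  have he := (he1.sub he2).mul (hasDerivAt_th1 w hy)
  have h := ((hqr1.const_mul 2).add hl2).add he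
  refine h.congr_deriv ?_
  simp [S]
  ring

end line

end Pool.Agent.Helper53.Worm
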