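import Pool.Agent.Helper53.Worm.Levi

/-!
# The domain: smoothness, regular boundary, Levi condition
-/

set_option autoImplicit false

open Filter Topology Set

namespace Pool.Agent.Helper53.Worm

noncomputable def chi (z : Fin 2 → ℂ) : ℝ :=
  Real.smoothTransition (2 * Real.exp 5 * Complex.normSq (z 1) - 1)

/-- The global smooth defining function. -/
noncomputable def rho (z : Fin 2 → ℂ) : ℝ := chi z * rho0 z + (1 - chi z)

/-- The worm domain. -/
def Om : Set (Fin 2 → ℂ) := {z | rho z < 0}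

lemma contDiff_re (i : Fin 2) :
    ContDiff ℝ ((⊤ : ℕ∞) : WithTop ℕ∞) (fun z : Fin 2 → ℂ => (z i).re) :=
  Complex.reCLM.contDiff.comp (contDiff_apply ℝ ℂ i)

lemma contDiff_im (i : Fin 2) :
    ContDiff ℝ ((⊤ : ℕ∞) : WithTop ℕ∞) (fun z : Fin 2 → ℂ => (z i).im) :=
  Complex.imCLM.contDiff.comp (contDiff_apply ℝ ℂ i)

lemma contDiff_normSq (i : Fin 2) :
    ContDiff ℝ ((⊤ : ℕ∞) : WithTop ℕ∞) (fun z : Fin 2 → ℂ => Complex.normSq (z i)) := by
  have h := ((contDiff_re i).mul (contDiff_re i)).add ((contDiff_im i).mul (contDiff_im i))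
  have he : (fun z : Fin 2 → ℂ => Complex.normSq (z i))
      = fun z => (z i).re * (z i).re + (z i).im * (z i).im := by
    funext z
    rw [Complex.normSq_apply]
  rw [he]
  exact h

lemma contDiffAt_th {z : Fin 2 → ℂ} (hz : z 1 ≠ 0) :
    ContDiffAt ℝ ((⊤ : ℕ∞) : WithTop ℕ∞) th z :=
  (contDiff_normSq 1).contDiffAt.log (by simpa using hz)

lemma contDiffAt_rho0 {z : Fin 2 → ℂ} (hz : z 1 ≠ 0) :
    ContDiffAt ℝ ((⊤ : ℕ∞) : WithTop ℕ∞) rho0 z := by
  have ht := contDiffAt_th hz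
  have h1 : ContDiffAt ℝ ((⊤ : ℕ∞) : WithTop ℕ∞) qr z :=
    ((contDiff_re 0).contDiffAt.mul ht.cos).add ((contDiff_im 0).contDiffAt.mul ht.sin)
  have h2 : ContDiffAt ℝ ((⊤ : ℕ∞) : WithTop ℕ∞)
      (fun z : Fin 2 → ℂ => g (Complex.normSq (z 0) - 1)) z :=
    contDiff_g.contDiffAt.comp z ((contDiff_normSq 0).contDiffAt.sub contDiffAt_const)
  have h3 : ContDiffAt ℝ ((⊤ : ℕ∞) : WithTop ℕ∞)
      (fun z : Fin 2 → ℂ => g (th z - 2)) z :=
    contDiff_g.contDiffAt.comp z (ht.sub contDiffAt_const)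
  have h4 : ContDiffAt ℝ ((⊤ : ℕ∞) : WithTop ℕ∞)
      (fun z : Fin 2 → ℂ => g (-th z - 2)) z :=
    contDiff_g.contDiffAt.comp z (ht.neg.sub contDiffAt_const)
  exact ((contDiffAt_const.mul h1).add h2).add (h3.add h4)

lemma contDiff_chi : ContDiff ℝ ((⊤ : ℕ∞) : WithTop ℕ∞) chi :=
  Real.smoothTransition.contDiff.comp ((contDiff_const.mul (contDiff_normSq 1)).sub contDiff_const)

lemma chi_eq_zero {z : Fin 2 → ℂ} (h : Complex.normSq (z 1) < Real.exp (-5) / 2) : chi z = 0 := by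
  apply Real.smoothTransition.zero_of_nonpos
  have h1 : Real.exp 5 * Real.exp (-5) = 1 := by rw [← Real.exp_add]; norm_num
  have h2 : Real.exp 5 * Complex.normSq (z 1) ≤ Real.exp 5 * (Real.exp (-5) / 2) :=
    mul_le_mul_of_nonneg_left h.le (Real.exp_pos 5).le
  nlinarith

lemma chi_eq_one {z : Fin 2 → ℂ} (h : Real.exp (-5) ≤ Complex.normSq (z 1)) : chi z = 1 := by
  apply Real.smoothTransition.one_of_one_le
  have h1 : Real.exp 5 * Real.exp (-5) = 1 := by rw [← Real.exp_add]; norm_num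
  have h2 : Real.exp 5 * Real.exp (-5) ≤ Real.exp 5 * Complex.normSq (z 1) :=
    mul_le_mul_of_nonneg_left h (Real.exp_pos 5).le
  nlinarith

lemma contDiff_rho : ContDiff ℝ ((⊤ : ℕ∞) : WithTop ℕ∞) rho := by
  rw [contDiff_iff_contDiffAt]
  intro z
  by_cases hz : z 1 = 0
  · have hev : rho =ᶠ[𝓝 z] fun _ => 1 := by
      have ho : IsOpen {y : Fin 2 → ℂ | Complex.normSq (y 1) < Real.exp (-5) / 2} :=
        isOpen_lt (contDiff_normSq 1).continuous continuous_const
      have hmem : z ∈ {y : Fin 2 → ℂ | Complex.normSq (y 1) < Real.exp (-5) / 2} := by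
        simp only [Set.mem_ofPred_eq, hz, map_zero]
        positivity
      filter_upwards [ho.mem_nhds hmem] with y hy
      rw [rho, chi_eq_zero hy]
      ring
    exact contDiffAt_const.congr_of_eventuallyEq hev
  · exact (contDiff_chi.contDiffAt.mul (contDiffAt_rho0 hz)).add
      (contDiffAt_const.sub contDiff_chi.contDiffAt)

lemma isOpen_Om : IsOpen Om := isOpen_lt contDiff_rho.continuous continuous_const

lemma abs_qr_le (z : Fin 2 → ℂ) : |qr z| ≤ ‖z 0‖ := by
  have h := normSq_y0 z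
  rw [Complex.normSq_eq_norm_sq] at h
  apply abs_le_of_sq_le_sq _ (norm_nonneg _)
  nlinarith [sq_nonneg (qi z)]

lemma rho0_ge (z : Fin 2 → ℂ) :
    -2 * ‖z 0‖ + g (‖z 0‖ ^ 2 - 1) + (g (th z - 2) + g (-th z - 2)) ≤ rho0 z := by
  have h := abs_qr_le z
  have h2 := neg_abs_le (qr z)
  rw [rho0, Complex.normSq_eq_norm_sq]
  linarith

lemma g_two : 4 < g 2 := by
  have h := g_ge (y := 2) (by norm_num)
  have h2 : (4 : ℝ) < Real.exp (2 * 2 - 1) := by
    have h3 := Real.add_one_lt_exp (x := 3) (by norm_num)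
    have h4 : (2 : ℝ) * 2 - 1 = 3 := by norm_num
    rw [h4]
    linarith
  linarith

lemma rho0_pos {z : Fin 2 → ℂ} (h : 4 ≤ |th z|) : 0 < rho0 z := by
  have h1 := rho0_ge z
  have h2 : 4 < g (th z - 2) + g (-th z - 2) := by
    rcases le_abs.mp h with h3 | h3
    · have : g 2 ≤ g (th z - 2) := monotone_g (by linarith)
      linarith [g_two, g_nonneg (-th z - 2)]
    · have : g 2 ≤ g (-th z - 2) := monotone_g (by linarith)
      linarith [g_two, g_nonneg (th z - 2)]
  rcases le_or_gt 2 ‖z 0‖ with h3 | h3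
  · have := lam_ge h3
    linarith
  · have := g_nonneg (‖z 0‖ ^ 2 - 1)
    linarith

lemma exp_neg_lt_normSq {z : Fin 2 → ℂ} (hz : z 1 ≠ 0) (h : |th z| < 4) :
    Real.exp (-4) < Complex.normSq (z 1) := by
  have h0 : 0 < Complex.normSq (z 1) := Complex.normSq_pos.mpr hz
  have h1 : -4 < Real.log (Complex.normSq (z 1)) := (abs_lt.mp h).1
  exact (Real.lt_log_iff_exp_lt h0).mp h1

lemma normSq_lt_exp {z : Fin 2 → ℂ} (hz : z 1 ≠ 0) (h : |th z| < 4) :
    Complex.normSq (z 1) < Real.exp 4 := by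
  have h0 : 0 < Complex.normSq (z 1) := Complex.normSq_pos.mpr hz
  have h1 : Real.log (Complex.normSq (z 1)) < 4 := (abs_lt.mp h).2
  exact (Real.log_lt_iff_lt_exp h0).mp h1

/-- Consequences of `rho z ≤ 0`. -/
lemma of_rho_nonpos {z : Fin 2 → ℂ} (h : rho z ≤ 0) :
    z 1 ≠ 0 ∧ |th z| < 4 ∧ chi z = 1 ∧ rho z = rho0 z := by
  have hchi0 : 0 ≤ chi z := Real.smoothTransition.nonneg _
  have hchi1 : chi z ≤ 1 := Real.smoothTransition.le_one _
  have hz : z 1 ≠ 0 := by
    intro hz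
    have : chi z = 0 := chi_eq_zero (by rw [hz, map_zero]; positivity)
    rw [rho, this] at h
    norm_num at h
  have hpos : ¬ (4 ≤ |th z|) := by
    intro h4
    have h5 := rho0_pos h4
    rw [rho] at h
    rcases eq_or_lt_of_le hchi0 with h6 | h6
    · rw [← h6] at h
      norm_num at h
    · have : 0 < chi z * rho0 z := mul_pos h6 h5
      linarith
  have h4 : |th z| < 4 := not_le.mp hpos
  have hone : chi z = 1 := by
    apply chi_eq_one
    have h6 := exp_neg_lt_normSq hz h4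
    have h7 : Real.exp (-5) ≤ Real.exp (-4) := Real.exp_le_exp.mpr (by norm_num)
    linarith
  refine ⟨hz, h4, hone, ?_⟩
  rw [rho, hone]
  ring

lemma rho_eventuallyEq {z : Fin 2 → ℂ} (h : rho z ≤ 0) : rho =ᶠ[𝓝 z] rho0 := by
  obtain ⟨hz, h4, -, -⟩ := of_rho_nonpos h
  have ho : IsOpen {y : Fin 2 → ℂ | Real.exp (-5) < Complex.normSq (y 1)} :=
    isOpen_lt continuous_const (contDiff_normSq 1).continuous
  have hmem : z ∈ {y : Fin 2 → ℂ | Real.exp (-5) < Complex.normSq (y 1)} := by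
    have h6 := exp_neg_lt_normSq hz h4
    have h7 : Real.exp (-5) ≤ Real.exp (-4) := Real.exp_le_exp.mpr (by norm_num)
    exact lt_of_le_of_lt h7 h6
  filter_upwards [ho.mem_nhds hmem] with y hy
  rw [rho, chi_eq_one (le_of_lt hy)]
  ring

lemma closure_Om_subset : closure Om ⊆ {z | rho z ≤ 0} := by
  apply closure_minimal
  · intro z hz
    exact le_of_lt (show rho z < 0 from hz)
  · exact isClosed_le contDiff_rho.continuous continuous_const

lemma frontier_Om {z : Fin 2 → ℂ} (hz : z ∈ frontier Om) : rho z = 0 := by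
  rw [isOpen_Om.frontier_eq] at hz
  have h1 : rho z ≤ 0 := closure_Om_subset hz.1
  have h2 : ¬ rho z < 0 := hz.2
  exact le_antisymm h1 (not_lt.mp h2)

lemma hasDerivAt_line (y w : Fin 2 → ℂ) : HasDerivAt (fun t : ℝ => y + t • w) w 0 := by
  simpa using ((hasDerivAt_id (0 : ℝ)).smul_const w).const_add y

lemma fderiv_rho0 {y : Fin 2 → ℂ} (hy : y 1 ≠ 0) (w : Fin 2 → ℂ) :
    fderiv ℝ rho0 y w = D y w := by
  have hd : DifferentiableAt ℝ rho0 y := (contDiffAt_rho0 hy).differentiableAt (by simp)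
  have h1 := hd.hasFDerivAt.comp_hasDerivAt_of_eq (0 : ℝ) (hasDerivAt_line y w) (by simp)
  exact h1.unique (hasDerivAt_rho0 w hy)

lemma fderiv_fderiv_rho0 {y : Fin 2 → ℂ} (hy : y 1 ≠ 0) (w : Fin 2 → ℂ) :
    fderiv ℝ (fderiv ℝ rho0) y w w = S y w := by
  have hd : DifferentiableAt ℝ (fderiv ℝ rho0) y :=
    ((contDiffAt_rho0 hy).fderiv_right (m := 1) (by norm_cast)).differentiableAt (by simp)
  have h1 := hd.hasFDerivAt.comp_hasDerivAt_of_eq (0 : ℝ) (hasDerivAt_line y w) (by simp)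
  have h2 : HasDerivAt (fun t : ℝ => fderiv ℝ rho0 (y + t • w) w)
      (fderiv ℝ (fderiv ℝ rho0) y w w) 0 := by
    have := h1.clm_apply (hasDerivAt_const (0 : ℝ) w)
    simpa using this
  have h3 : (fun t : ℝ => fderiv ℝ rho0 (y + t • w) w) =ᶠ[𝓝 0] fun t : ℝ => D (y + t • w) w := by
    have hc : Continuous (fun t : ℝ => (y + t • w) 1) := by fun_prop
    have hn : ∀ᶠ t : ℝ in 𝓝 0, (y + t • w) 1 ≠ 0 := by
      apply hc.continuousAt.eventually_ne
      simpa using hy
    filter_upwards [hn] with t ht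
    exact fderiv_rho0 ht w
  exact (h2.congr_of_eventuallyEq h3.symm).unique (hasDerivAt_D w hy)

lemma rho_levi {z : Fin 2 → ℂ} (hz : z ∈ frontier Om) (w : Fin 2 → ℂ)
    (h1 : fderiv ℝ rho z w = 0) (h2 : fderiv ℝ rho z (Complex.I • w) = 0) :
    0 ≤ iteratedFDeriv ℝ 2 rho z ![w, w]
      + iteratedFDeriv ℝ 2 rho z ![Complex.I • w, Complex.I • w] := by
  have hr := frontier_Om hz
  obtain ⟨hz1, h4, -, h5⟩ := of_rho_nonpos hr.le
  have hev := rho_eventuallyEq hr.le
  have hb : rho0 z = 0 := by rw [← h5, hr]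
  rw [hev.fderiv_eq, fderiv_rho0 hz1] at h1 h2
  rw [(hev.iteratedFDeriv ℝ 2).eq_of_nhds, iteratedFDeriv_two_apply, iteratedFDeriv_two_apply]
  simp only [Matrix.cons_val_zero, Matrix.cons_val_one]
  rw [fderiv_fderiv_rho0 hz1, fderiv_fderiv_rho0 hz1]
  exact levi_nonneg hz1 hb w h1 h2

lemma rho_fderiv_ne {z : Fin 2 → ℂ} (hz : z ∈ frontier Om) : fderiv ℝ rho z ≠ 0 := by
  intro hzero
  have hr := frontier_Om hz
  obtain ⟨hz1, h4, -, h5⟩ := of_rho_nonpos hr.le
  have hev := rho_eventuallyEq hr.le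
  have hb : rho0 z = 0 := by rw [← h5, hr]
  rw [hev.fderiv_eq] at hzero
  have hD : ∀ w, D z w = 0 := fun w => by rw [← fderiv_rho0 hz1, hzero]; rfl
  have hcs := Real.cos_sq_add_sin_sq (th z)
  have hN : Complex.normSq (z 1) ≠ 0 := by simpa using hz1
  have h1 : 1 + g1 (Complex.normSq (z 0) - 1) * qr z = 0 := by
    have h := hD ![(⟨Real.cos (th z), Real.sin (th z)⟩ : ℂ), 0]
    simp only [D, qr1, th1, Matrix.cons_val_zero, Matrix.cons_val_one, Complex.zero_re,
      Complex.zero_im, mul_zero, add_zero, zero_div] at h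
    rw [qr]
    linear_combination h / 2 - hcs
  have h2 : g1 (Complex.normSq (z 0) - 1) * qi z = 0 := by
    have h := hD ![(⟨-Real.sin (th z), Real.cos (th z)⟩ : ℂ), 0]
    simp only [D, qr1, th1, Matrix.cons_val_zero, Matrix.cons_val_one, Complex.zero_re,
      Complex.zero_im, mul_zero, add_zero, zero_div] at h
    rw [qi]
    linear_combination h / 2
  have h3 : 2 * qi z + (g1 (th z - 2) - g1 (-th z - 2)) = 0 := by
    have h := hD ![0, z 1]
    have ht : th1 z ![0, z 1] = 2 := by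
      simp only [th1, Matrix.cons_val_one, Matrix.cons_val_fin_one]
      rw [← Complex.normSq_apply, div_self hN, mul_one]
    simp only [D, qr1, ht, Matrix.cons_val_zero, Complex.zero_re,
      Complex.zero_im, mul_zero, add_zero, zero_mul, zero_add] at h
    linear_combination h / 2
  have hb' : 2 * qr z + g (Complex.normSq (z 0) - 1) + (g (th z - 2) + g (-th z - 2)) = 0 := hb
  rcases nondegenerate (v := qi z) hb' (g_nonneg _)
    (by rw [← normSq_y0]; exact g_le_mul_g1 (Complex.normSq_nonneg _))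
    (fun h => e1_eq_zero h) with h | h | h
  · exact h h1
  · exact h h2
  · exact h h3

lemma norm_z0_lt {z : Fin 2 → ℂ} (h : rho z < 0) : ‖z 0‖ < 2 := by
  obtain ⟨hz1, h4, -, h5⟩ := of_rho_nonpos h.le
  rw [h5] at h
  by_contra hcon
  have h6 := lam_ge (not_lt.mp hcon)
  have h7 := rho0_ge z
  linarith [g_nonneg (th z - 2), g_nonneg (-th z - 2)]

lemma isBounded_Om : Bornology.IsBounded Om := by
  rw [isBounded_iff_forall_norm_le]
  refine ⟨2 + Real.exp 4, ?_⟩
  intro z hz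
  have hz' : rho z < 0 := hz
  obtain ⟨hz1, h4, -, h5⟩ := of_rho_nonpos hz'.le
  have h0 := norm_z0_lt hz'
  have h1 := normSq_lt_exp hz1 h4
  rw [Complex.normSq_eq_norm_sq] at h1
  have he : 1 ≤ Real.exp 4 := Real.one_le_exp (by norm_num)
  rw [pi_norm_le_iff_of_nonneg (by positivity)]
  intro i
  fin_cases i
  · simp only [Fin.zero_eta]
    linarith
  · simp only [Fin.mk_one]
    nlinarith [norm_nonneg (z 1)]

end Pool.Agent.Helper53.Worm
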