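import Pool.Agent.Helper53.Worm.Final

/-!
# Further facts on the domain: the boundary is the zero set of the defining function, a closed boundary
inside the topological boundary
-/

set_option autoImplicit false

open Filter Topology Set Metric

namespace Pool.Agent.Helper53.Worm

lemma rho_fderiv_ne' {z : Fin 2 → ℂ} (hr : rho z = 0) : fderiv ℝ rho z ≠ 0 := by
  intro hzero
  obtain ⟨hz1, h4, -, h5⟩ := of_rho_nonpos hr.le
  have hev := rho_eventuallyEq hr.le
  have hb : rho0 z = 0 := by rw [← h5, hr]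
  rw [hev.fderiv_eq] at hzero
  have hD : ∀ w, D z w = 0 := fun w => by rw [← fderiv_rho0 hz1, hzero]; rfl
  have hcs := Real.cos_sq_add_sin_sq (th z)
  have hN : Complex.normSq (z 1) ≠ 0 := by simpa using hz1
  have h1 : 1 + g1 (Complex.normSq (z 0) - 1) * qr z = 0 := by
    have h := hD ![(⟨Real.cos (th z), Real.sin (th z)⟩ : ℂ), 0]
    simp only [D, qr1, th1, Matrix.cons_val_zero, Matrix.cons_val_one, Complex.zero_re,
      Complex.zero_im, mul_zero, add_zero, zero_div] at h
    rw [qr]
    linear_combination h / 2 - hcs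
  have h2 : g1 (Complex.normSq (z 0) - 1) * qi z = 0 := by
    have h := hD ![(⟨-Real.sin (th z), Real.cos (th z)⟩ : ℂ), 0]
    simp only [D, qr1, th1, Matrix.cons_val_zero, Matrix.cons_val_one, Complex.zero_re,
      Complex.zero_im, mul_zero, add_zero, zero_div] at h
    rw [qi]
    linear_combination h / 2
  have h3 : 2 * qi z + (g1 (th z - 2) - g1 (-th z - 2)) = 0 := by
    have h := hD ![0, z 1]
    have ht : th1 z ![0, z 1] = 2 := by
      simp only [th1, Matrix.cons_val_one, Matrix.cons_val_fin_one]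
      rw [← Complex.normSq_apply, div_self hN, mul_one]
    simp only [D, qr1, ht, Matrix.cons_val_zero, Complex.zero_re,
      Complex.zero_im, mul_zero, add_zero, zero_mul, zero_add] at h
    linear_combination h / 2
  have hb' : 2 * qr z + g (Complex.normSq (z 0) - 1) + (g (th z - 2) + g (-th z - 2)) = 0 := hb
  rcases nondegenerate (v := qi z) hb' (g_nonneg _)
    (by rw [← normSq_y0]; exact g_le_mul_g1 (Complex.normSq_nonneg _))
    (fun h => e1_eq_zero h) with h | h | h
  · exact h h1
  · exact h h2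
  · exact h h3

lemma mem_closure_of_rho {z : Fin 2 → ℂ} (hr : rho z = 0) : z ∈ closure Om := by
  by_contra hcon
  refine rho_fderiv_ne' hr (IsLocalMin.fderiv_eq_zero ?_)
  have h1 : ∀ᶠ y in 𝓝 z, y ∈ (closure Om)ᶜ := isClosed_closure.isOpen_compl.mem_nhds hcon
  filter_upwards [h1] with y hy
  rw [hr]
  by_contra h2
  exact hy (subset_closure (not_le.mp h2))

lemma closure_Om : closure Om = {z | rho z ≤ 0} := by
  refine Subset.antisymm closure_Om_subset fun z hz => ?_
  rcases lt_or_eq_of_le (show rho z ≤ 0 from hz) with h | h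
  · exact subset_closure h
  · exact mem_closure_of_rho h

lemma frontier_Om_eq : frontier Om = {z | rho z = 0} := by
  rw [frontier, isOpen_Om.interior_eq, closure_Om]
  ext z
  constructor
  · rintro ⟨h1, h2⟩
    exact le_antisymm h1 (not_lt.mp h2)
  · intro h
    exact ⟨le_of_eq h, fun h2 => absurd h (ne_of_lt h2)⟩

/-- The closed boundary. -/
def KF : Set (Fin 2 → ℂ) := KK ∩ frontier Om

lemma isClosed_KF : IsClosed KF := isClosed_KK.inter isClosed_frontier

lemma mem_Om_neg {t : ℝ} (h0 : 0 < t) (h1 : t ≤ 1) : (![-(t : ℂ), 1] : Fin 2 → ℂ) ∈ Om := by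
  have ht : th ![-(t : ℂ), 1] = 0 := by simp [th]
  refine mem_Om_of (by simp) ?_ (by rw [ht]; norm_num) ?_
  · simp only [Matrix.cons_val_zero]
    rw [norm_neg, Complex.norm_real, Real.norm_eq_abs, abs_of_pos h0]
    exact h1
  · rw [qr, ht]
    simp only [Matrix.cons_val_zero, Real.cos_zero, Real.sin_zero, Complex.neg_re,
      Complex.ofReal_re]
    linarith

lemma KF_nonempty : KF.Nonempty := by
  -- the ray through `(-1, 1)` leaves the domain
  have hcont : Continuous fun t : ℝ => rho ![-(t : ℂ), 1] := by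
    refine contDiff_rho.continuous.comp ?_
    rw [continuous_pi_iff]
    intro i
    fin_cases i
    · simp only [Fin.zero_eta, Matrix.cons_val_zero]
      fun_prop
    · simp only [Fin.mk_one, Matrix.cons_val_one, Matrix.cons_val_fin_one]
      fun_prop
  have h1 : rho ![-((1 : ℝ) : ℂ), 1] < 0 := mem_Om_neg one_pos le_rfl
  have h2 : 0 ≤ rho ![-((2 : ℝ) : ℂ), 1] := by
    by_contra h
    have h3 := norm_z0_lt (not_le.mp h)
    simp only [Matrix.cons_val_zero] at h3
    rw [norm_neg, Complex.norm_real] at h3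
    norm_num at h3
  obtain ⟨t, ht, ht0⟩ := intermediate_value_Icc (by norm_num : (1 : ℝ) ≤ 2)
    hcont.continuousOn ⟨h1.le, h2⟩
  refine ⟨![-(t : ℂ), 1], ⟨mem_closure_of_rho ht0, Or.inl (Or.inl ?_)⟩, ?_⟩
  · simp only [Set.mem_ofPred_eq, Matrix.cons_val_zero]
    rw [norm_neg, Complex.norm_real, Real.norm_eq_abs, abs_of_pos (by linarith [ht.1])]
    linarith [ht.1]
  · rw [frontier_Om_eq]
    exact ht0

theorem KF_boundary (f : (Fin 2 → ℂ) → ℂ) (hc : ContinuousOn f (closure Om))
    (hd : DifferentiableOn ℂ f Om) : ∃ k ∈ KF, ∀ z ∈ closure Om, ‖f z‖ ≤ ‖f k‖ := by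
  obtain ⟨k, hk, hmax⟩ := KK_boundary f hc hd
  by_cases hkf : k ∈ frontier Om
  · exact ⟨k, ⟨hk, hkf⟩, hmax⟩
  · -- the maximum is attained inside: `|f|` is constant
    have hkO : k ∈ Om := by
      by_contra h
      exact hkf ⟨hk.1, by rw [isOpen_Om.interior_eq]; exact h⟩
    have hm : IsMaxOn (norm ∘ f) Om k := fun z hz => hmax z (subset_closure hz)
    have heq := Complex.norm_eqOn_of_isPreconnected_of_isMaxOn isConnected_Om.isPreconnected
      isOpen_Om hd hkO hm
    obtain ⟨q, hq⟩ := KF_nonempty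
    refine ⟨q, hq, fun z hz => ?_⟩
    have h1 : ‖f q‖ = ‖f k‖ := by
      have h2 : EqOn (fun z => ‖f z‖) (fun _ => ‖f k‖) (closure Om) := by
        refine EqOn.of_subset_closure (s := Om) (t := closure Om) heq hc.norm
          continuousOn_const subset_closure ?_
        exact Subset.rfl
      exact h2 hq.1.1
    rw [h1]
    exact hmax z hz

lemma VV_eq : VV = {z | z ∈ Om ∧ ∃ m : ℕ, 0 < m ∧ z 0 = -(1 / (2 * m))} := by
  ext z
  constructor
  · rintro ⟨h1, h2⟩
    exact ⟨h1, (eqn_zero_iff (z0_ne h1)).mp h2⟩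
  · rintro ⟨h1, h2⟩
    exact ⟨h1, (eqn_zero_iff (z0_ne h1)).mpr h2⟩

lemma VV_nonempty : VV.Nonempty := by
  rw [VV_eq]
  have h := mem_Om_neg (t := 1 / 2) (by norm_num) (by norm_num)
  refine ⟨_, h, 1, one_pos, ?_⟩
  simp only [Matrix.cons_val_zero]
  push_cast
  norm_num

lemma disjoint_KF : Disjoint (closure VV) KF := by
  have hclosed : IsClosed ({z : Fin 2 → ℂ | ‖z 0‖ ≤ 1 / 2}
      ∩ {z | Complex.normSq (z 1) ≤ Real.exp (8 / 5)}
      ∩ {z | Real.exp (-(8 / 5)) ≤ Complex.normSq (z 1)}) := by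
    refine (IsClosed.inter ?_ ?_).inter ?_
    · exact isClosed_le (by fun_prop) continuous_const
    · exact isClosed_le (contDiff_normSq 1).continuous continuous_const
    · exact isClosed_le continuous_const (contDiff_normSq 1).continuous
  have h1 := closure_minimal VV_subset hclosed
  rw [Set.disjoint_left]
  intro z hz hK'
  have hK : z ∈ KK := hK'.1
  obtain ⟨⟨ha, hb⟩, hc⟩ := h1 hz
  simp only [Set.mem_ofPred_eq] at ha hb hc
  rcases hK.2 with (h | h) | h
  · have h : 3 / 4 ≤ ‖z 0‖ := h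
    linarith
  · have h : Real.exp (9 / 5) ≤ Complex.normSq (z 1) := h
    have h2 : Real.exp (8 / 5) < Real.exp (9 / 5) := Real.exp_lt_exp.mpr (by norm_num)
    linarith
  · have h : Complex.normSq (z 1) ≤ Real.exp (-(9 / 5)) := h
    have h2 : Real.exp (-(9 / 5)) < Real.exp (-(8 / 5)) := Real.exp_lt_exp.mpr (by norm_num)
    linarith

end Pool.Agent.Helper53.Worm
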