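import Pool.Agent.Helper53.Worm.Shilov
import Pool.Agent.Helper53.Worm.Blaschke

/-!
# The divisor and the vanishing of bounded functions
-/

set_option autoImplicit false

open Filter Topology Set Metric ComplexConjugate

namespace Pool.Agent.Helper53.Worm

/-- The holomorphic equation of the divisor, a function of `z₁` alone. -/
noncomputable def eqn (z : Fin 2 → ℂ) : ℂ := (Complex.Gamma (1 / (2 * z 0)))⁻¹

/-- The divisor: the slices `z₁ = -1/(2m)`. -/
def VV : Set (Fin 2 → ℂ) := {z | z ∈ Om ∧ eqn z = 0}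

lemma z0_ne {z : Fin 2 → ℂ} (hz : z ∈ Om) : z 0 ≠ 0 := by
  intro h
  have h1 := (rho_neg_iff.mp hz).2
  have h2 : qr z = 0 := by rw [qr, h]; simp
  rw [rho0, h2] at h1
  linarith [g_nonneg (Complex.normSq (z 0) - 1), g_nonneg (th z - 2), g_nonneg (-th z - 2)]

lemma eqn_zero_iff {z : Fin 2 → ℂ} (hz : z 0 ≠ 0) :
    eqn z = 0 ↔ ∃ m : ℕ, 0 < m ∧ z 0 = -(1 / (2 * m)) := by
  rw [eqn, inv_eq_zero, Complex.Gamma_eq_zero_iff]
  constructor
  · rintro ⟨m, hm⟩
    have hm0 : m ≠ 0 := by
      rintro rfl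
      simp [hz] at hm
    have hmc : (m : ℂ) ≠ 0 := by exact_mod_cast hm0
    refine ⟨m, Nat.pos_of_ne_zero hm0, ?_⟩
    rw [div_eq_iff (by simpa using hz)] at hm
    field_simp
    linear_combination hm
  · rintro ⟨m, hm0, hm⟩
    have hmc : (m : ℂ) ≠ 0 := by exact_mod_cast hm0.ne'
    refine ⟨m, ?_⟩
    rw [hm]
    field_simp

lemma differentiableOn_eqn {s : Set (Fin 2 → ℂ)} (hs : ∀ z ∈ s, z 0 ≠ 0) :
    DifferentiableOn ℂ eqn s := by
  have h1 : DifferentiableOn ℂ (fun z : Fin 2 → ℂ => 1 / (2 * z 0)) s := by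
    intro z hz
    have := hs z hz
    refine DifferentiableAt.differentiableWithinAt ?_
    have h2 : (2 : ℂ) * z 0 ≠ 0 := mul_ne_zero two_ne_zero this
    fun_prop (disch := assumption)
  exact Complex.differentiable_one_div_Gamma.differentiableOn.comp h1 (mapsTo_univ _ _)

lemma VV_local : ∀ p ∈ Om, ∃ r > 0, Metric.ball p r ⊆ Om ∧
    ∃ g : (Fin 2 → ℂ) → ℂ, DifferentiableOn ℂ g (Metric.ball p r) ∧
      (∃ z ∈ Metric.ball p r, g z ≠ 0) ∧
      ∀ z ∈ Metric.ball p r, (z ∈ VV ↔ g z = 0) := by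
  intro p hp
  obtain ⟨r, hr, hball⟩ := Metric.isOpen_iff.mp isOpen_Om p hp
  refine ⟨r, hr, hball, eqn, differentiableOn_eqn fun z hz => z0_ne (hball hz), ?_, ?_⟩
  · -- a point with non-real first coordinate
    by_cases him : (p 0).im = 0
    · set z : Fin 2 → ℂ := ![p 0 + ((r / 2 : ℝ) : ℂ) * Complex.I, p 1] with hz
      have hz0 : z 0 = p 0 + ((r / 2 : ℝ) : ℂ) * Complex.I := rfl
      have hzmem : z ∈ ball p r := by
        rw [mem_ball, dist_pi_lt_iff hr]
        intro i
        fin_cases i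
        · simp only [Fin.zero_eta]
          rw [hz0, dist_eq_norm, add_sub_cancel_left, norm_mul, Complex.norm_I, mul_one,
            Complex.norm_real, Real.norm_eq_abs, abs_of_pos (by positivity)]
          linarith
        · simp only [hz, Fin.mk_one, Matrix.cons_val_one, Matrix.cons_val_fin_one, dist_self]
          exact hr
      refine ⟨z, hzmem, ?_⟩
      rw [Ne, eqn_zero_iff (z0_ne (hball hzmem))]
      rintro ⟨m, hm0, hm⟩
      have h1 : (z 0).im = r / 2 := by
        rw [hz0]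
        simp [him]
      have h2 : (-(1 / (2 * (m : ℂ)))).im = 0 := by
        have : (-(1 / (2 * (m : ℂ)))) = ((-(1 / (2 * (m : ℝ))) : ℝ) : ℂ) := by push_cast; ring
        rw [this, Complex.ofReal_im]
      rw [hm, h2] at h1
      linarith
    · refine ⟨p, mem_ball_self hr, ?_⟩
      rw [Ne, eqn_zero_iff (z0_ne hp)]
      rintro ⟨m, hm0, hm⟩
      apply him
      have : (-(1 / (2 * (m : ℂ)))) = ((-(1 / (2 * (m : ℝ))) : ℝ) : ℂ) := by push_cast; ring
      rw [hm, this, Complex.ofReal_im]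
  · intro z hz
    exact ⟨fun h => h.2, fun h => ⟨hball hz, h⟩⟩

lemma VV_subset : VV ⊆ {z | ‖z 0‖ ≤ 1 / 2} ∩ {z | Complex.normSq (z 1) ≤ Real.exp (8 / 5)}
    ∩ {z | Real.exp (-(8 / 5)) ≤ Complex.normSq (z 1)} := by
  intro z hz
  obtain ⟨hzO, hze⟩ := hz
  obtain ⟨m, hm0, hm⟩ := (eqn_zero_iff (z0_ne hzO)).mp hze
  have hmpos : (1 : ℝ) ≤ m := by exact_mod_cast hm0
  have hcast : z 0 = ((-(1 / (2 * (m : ℝ))) : ℝ) : ℂ) := by rw [hm]; push_cast; ring
  have hpos : 0 < 1 / (2 * (m : ℝ)) := by positivity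
  obtain ⟨h1, h2⟩ := rho_neg_iff.mp hzO
  have hzneg : rho z < 0 := hzO
  obtain ⟨-, h4, -, -⟩ := of_rho_nonpos hzneg.le
  have hcos : 0 < Real.cos (th z) := by
    have hq : qr z = -(1 / (2 * (m : ℝ))) * Real.cos (th z) := by
      rw [qr, hcast, Complex.ofReal_re, Complex.ofReal_im]
      ring
    rw [rho0, hq] at h2
    have h3 : 0 < 1 / (2 * (m : ℝ)) * Real.cos (th z) := by
      nlinarith [g_nonneg (Complex.normSq (z 0) - 1), g_nonneg (th z - 2), g_nonneg (-th z - 2)]
    exact (mul_pos_iff_of_pos_left hpos).mp h3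
  have hth : |th z| ≤ 8 / 5 := by
    by_contra hcon
    rw [not_le] at hcon
    have h5 : Real.cos |th z| ≤ 0 := by
      apply Real.cos_nonpos_of_pi_div_two_le_of_le
      · have := Real.pi_lt_d2
        linarith
      · have := Real.pi_gt_three
        linarith
    rw [Real.cos_abs] at h5
    linarith
  have hN : 0 < Complex.normSq (z 1) := Complex.normSq_pos.mpr h1
  refine ⟨⟨?_, ?_⟩, ?_⟩
  · rw [Set.mem_ofPred_eq, hcast, Complex.norm_real, Real.norm_eq_abs, abs_neg, abs_of_pos hpos]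
    rw [div_le_div_iff₀ (by positivity) (by norm_num)]
    linarith
  · exact (Real.log_le_iff_le_exp hN).mp (abs_le.mp hth).2
  · exact (Real.le_log_iff_exp_le hN).mp (abs_le.mp hth).1

lemma disjoint_closure_VV : Disjoint (closure VV)
    (⋂₀ {K : Set (Fin 2 → ℂ) | IsClosed K ∧ K ⊆ closure Om ∧
      ∀ f : (Fin 2 → ℂ) → ℂ, ContinuousOn f (closure Om) → DifferentiableOn ℂ f Om →
        ∃ k ∈ K, ∀ z ∈ closure Om, ‖f z‖ ≤ ‖f k‖}) := by
  have hclosed : IsClosed ({z : Fin 2 → ℂ | ‖z 0‖ ≤ 1 / 2}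
      ∩ {z | Complex.normSq (z 1) ≤ Real.exp (8 / 5)}
      ∩ {z | Real.exp (-(8 / 5)) ≤ Complex.normSq (z 1)}) := by
    refine (IsClosed.inter ?_ ?_).inter ?_
    · exact isClosed_le (by fun_prop) continuous_const
    · exact isClosed_le (contDiff_normSq 1).continuous continuous_const
    · exact isClosed_le continuous_const (contDiff_normSq 1).continuous
  have h1 := closure_minimal VV_subset hclosed
  rw [Set.disjoint_left]
  intro z hz hz2
  have hK : z ∈ KK := hz2 KK ⟨isClosed_KK, inter_subset_left, fun f hc hd => KK_boundary f hc hd⟩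
  obtain ⟨⟨ha, hb⟩, hc⟩ := h1 hz
  simp only [Set.mem_ofPred_eq] at ha hb hc
  rcases hK.2 with (h | h) | h
  · have h : 3 / 4 ≤ ‖z 0‖ := h
    linarith
  · have h : Real.exp (9 / 5) ≤ Complex.normSq (z 1) := h
    have h2 : Real.exp (8 / 5) < Real.exp (9 / 5) := Real.exp_lt_exp.mpr (by norm_num)
    linarith
  · have h : Complex.normSq (z 1) ≤ Real.exp (-(9 / 5)) := h
    have h2 : Real.exp (-(9 / 5)) < Real.exp (-(8 / 5)) := Real.exp_lt_exp.mpr (by norm_num)
    linarith

/-- Identity theorem on a connected open set, several variables. -/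
lemma eqOn_zero_of_open {E : Type*} [NormedAddCommGroup E] [NormedSpace ℂ E] {U u : Set E}
    (hU : IsOpen U) (hUc : IsPreconnected U) {f : E → ℂ} (hf : DifferentiableOn ℂ f U)
    (hu : IsOpen u) (hne : (U ∩ u).Nonempty) (h0 : ∀ z ∈ u, f z = 0) : ∀ z ∈ U, f z = 0 := by
  set Z : Set E := interior {z | f z = 0} with hZ
  have huZ : u ⊆ Z := interior_maximal h0 hu
  have hsub : U ⊆ Z := by
    refine hUc.subset_of_closure_inter_subset isOpen_interior
      (hne.mono (inter_subset_inter_right U huZ)) ?_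
    rintro p ⟨hpc, hpU⟩
    obtain ⟨r, hr, hball⟩ := Metric.isOpen_iff.mp hU p hpU
    obtain ⟨q, hqZ, hpq⟩ := Metric.mem_closure_iff.mp hpc r hr
    have hsub2 : ball p r ⊆ {z | f z = 0} := by
      intro z hz
      set W : Set ℂ := {t | q + t • (z - q) ∈ ball p r} with hW
      have hcont : Continuous (fun t : ℂ => q + t • (z - q)) := by fun_prop
      have hWo : IsOpen W := isOpen_ball.preimage hcont
      have hWc : Convex ℝ W := by
        intro s hs t ht a b ha hb hab
        have hc := convex_ball p r hs ht ha hb hab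
        have he : q + (a • s + b • t) • (z - q)
            = a • (q + s • (z - q)) + b • (q + t • (z - q)) := by
          have hq : q = (a + b) • q := by rw [hab, one_smul]
          rw [add_smul, smul_assoc, smul_assoc, smul_add, smul_add]
          nth_rewrite 1 [hq]
          rw [add_smul]
          abel
        change q + (a • s + b • t) • (z - q) ∈ ball p r
        rw [he]
        exact hc
      have hd : DifferentiableOn ℂ (fun t : ℂ => f (q + t • (z - q))) W := by
        refine DifferentiableOn.comp (t := U) hf ?_ (fun t ht => hball ht)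
        fun_prop
      have hq0 : (0 : ℂ) ∈ W := by
        change q + (0 : ℂ) • (z - q) ∈ ball p r
        rw [zero_smul, add_zero, mem_ball, dist_comm]
        exact hpq
      have hq1 : (1 : ℂ) ∈ W := by
        change q + (1 : ℂ) • (z - q) ∈ ball p r
        rw [one_smul, add_sub_cancel]
        exact hz
      have hev : (fun t : ℂ => f (q + t • (z - q))) =ᶠ[𝓝 0] 0 := by
        have h1 : ∀ᶠ t : ℂ in 𝓝 0, q + t • (z - q) ∈ Z := by
          apply hcont.continuousAt.eventually_mem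
          apply isOpen_interior.mem_nhds
          rw [zero_smul, add_zero]
          exact hqZ
        filter_upwards [h1] with t ht
        have h2 : q + t • (z - q) ∈ {z | f z = 0} := interior_subset ht
        exact h2
      have := (hd.analyticOnNhd hWo).eqOn_zero_of_preconnected_of_eventuallyEq_zero
        hWc.isPreconnected hq0 hev hq1
      simpa using this
    exact interior_maximal hsub2 isOpen_ball (mem_ball_self hr)
  intro z hz
  have h2 : z ∈ {z | f z = 0} := interior_subset (hsub hz)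
  exact h2

lemma mem_Om_of {z : Fin 2 → ℂ} (h1 : z 1 ≠ 0) (h0 : ‖z 0‖ ≤ 1) (ht : |th z| ≤ 2)
    (hq : qr z < 0) : z ∈ Om := by
  apply rho_neg_iff.mpr
  refine ⟨h1, ?_⟩
  rw [rho0_flat h0 ht]
  linarith

lemma th_vec (ζ b : ℂ) (z : Fin 2 → ℂ) (hz : z 1 = b) : th ![ζ, b] = th z := by
  simp [th, hz]

/-- The bounded function vanishes on each leaf-normal ray. -/
lemma zero_on_ray {f : (Fin 2 → ℂ) → ℂ} (hd : DifferentiableOn ℂ f Om) {M : ℝ}
    (hM : ∀ z ∈ Om, ‖f z‖ ≤ M) (hV : ∀ v ∈ VV, f v = 0) {b : ℂ} (hb : b ≠ 0)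
    (hth : |Real.log (Complex.normSq b)| < 1) {s : ℝ} (hs : 0 < s) (hs' : s < 1 / 2) :
    f ![-(s : ℂ) * Complex.exp ((Real.log (Complex.normSq b) : ℂ) * Complex.I), b] = 0 := by
  set θ : ℝ := Real.log (Complex.normSq b) with hθ
  set e : ℂ := Complex.exp ((θ : ℂ) * Complex.I) with he
  have hen : ‖e‖ = 1 := Complex.norm_exp_ofReal_mul_I θ
  have he0 : e ≠ 0 := Complex.exp_ne_zero _
  set e' : ℂ := Complex.exp (-(θ : ℂ) * Complex.I) with he'
  have hee : e * e' = 1 := by
    rw [he, he', ← Complex.exp_add]; simp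
  set ψ : ℂ → Fin 2 → ℂ := fun w => ![-(s : ℂ) * e * (1 - w), b] with hψ
  have hψmem : ∀ w ∈ ball (0 : ℂ) 1, ψ w ∈ Om := by
    intro w hw
    have hw1 : ‖w‖ < 1 := by simpa using hw
    have htθ : th (ψ w) = θ := by simp [th, hψ, hθ]
    apply mem_Om_of
    · exact hb
    · have : ψ w 0 = -(s : ℂ) * e * (1 - w) := rfl
      rw [this, norm_mul, norm_mul, norm_neg, hen, Complex.norm_real, Real.norm_eq_abs,
        abs_of_pos hs, mul_one]
      have : ‖(1 : ℂ) - w‖ ≤ 2 := by
        refine (norm_sub_le _ _).trans ?_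
        rw [norm_one]
        linarith
      nlinarith [norm_nonneg ((1 : ℂ) - w)]
    · rw [htθ]
      linarith
    · rw [qr_eq, htθ]
      have h1 : ψ w 0 * Complex.exp (-(θ : ℂ) * Complex.I) = (((-s : ℝ)) : ℂ) * (1 - w) := by
        have : ψ w 0 = -(s : ℂ) * e * (1 - w) := rfl
        rw [this, ← he']
        push_cast
        linear_combination (-(s : ℂ) * (1 - w)) * hee
      rw [h1, Complex.re_ofReal_mul, Complex.sub_re, Complex.one_re]
      have h2 := (abs_le.mp ((Complex.abs_re_le_norm w).trans hw1.le)).2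
      have h3 : w.re < 1 := lt_of_le_of_lt (Complex.re_le_norm w) hw1
      nlinarith
  have hψd : Differentiable ℂ ψ := by
    rw [differentiable_pi]
    intro i
    fin_cases i
    · simp only [hψ, Fin.zero_eta, Matrix.cons_val_zero]
      fun_prop
    · simp only [hψ, Fin.mk_one, Matrix.cons_val_one, Matrix.cons_val_fin_one]
      fun_prop
  have hF : DifferentiableOn ℂ (fun w => f (ψ w)) (ball 0 1) :=
    DifferentiableOn.comp (t := Om) hd hψd.differentiableOn hψmem
  set κ : ℂ := e' / (2 * s) with hκ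
  have hκre : 0 < κ.re := by
    have h1 : κ = ((1 / (2 * s) : ℝ) : ℂ) * e' := by
      rw [hκ]; push_cast; field_simp
    rw [h1, Complex.re_ofReal_mul]
    apply mul_pos (by positivity)
    rw [he', Complex.exp_mul_I, Complex.cos_neg, Complex.sin_neg, ← Complex.ofReal_cos,
      ← Complex.ofReal_sin]
    have h2 : ((Real.cos θ : ℂ) + -(Real.sin θ : ℂ) * Complex.I).re = Real.cos θ := by simp [Complex.cos_ofReal_re]
    rw [h2]
    apply Real.cos_pos_of_mem_Ioo
    have := abs_lt.mp hth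
    have h3 := Real.pi_gt_three
    constructor <;> linarith
  have hzero := eq_zero_of_zeros hF (fun w hw => hM _ (hψmem w hw)) hκre (by
    intro m hm hmem
    apply hV
    have hin := hψmem _ hmem
    refine ⟨hin, ?_⟩
    rw [eqn_zero_iff (z0_ne hin)]
    refine ⟨m, hm, ?_⟩
    have hmc : (m : ℂ) ≠ 0 := by exact_mod_cast hm.ne'
    have hsc : (s : ℂ) ≠ 0 := by exact_mod_cast hs.ne'
    have : ψ (1 - κ / m) 0 = -(s : ℂ) * e * (1 - (1 - κ / m)) := rfl
    rw [this, hκ]
    have h4 : -(s : ℂ) * e * (1 - (1 - e' / (2 * s) / m)) = -(e * e') / (2 * m) := by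
      field_simp
      ring
    rw [h4, hee]
    ring)
  have h5 : ψ 0 = ![-(s : ℂ) * e, b] := by
    simp [hψ]
  rw [← h5]
  exact hzero

/-- The half disc slice. -/
lemma zero_on_slice {f : (Fin 2 → ℂ) → ℂ} (hd : DifferentiableOn ℂ f Om) {M : ℝ}
    (hM : ∀ z ∈ Om, ‖f z‖ ≤ M) (hV : ∀ v ∈ VV, f v = 0) {z : Fin 2 → ℂ} (hz1 : z 1 ≠ 0)
    (hth : |th z| < 1) (hz0 : ‖z 0‖ < 1) (hq : qr z < 0) : f z = 0 := by
  set b := z 1 with hb
  set θ : ℝ := th z with hθ
  set W : Set ℂ := {ζ | ‖ζ‖ < 1 ∧ (ζ * Complex.exp (-(θ : ℂ) * Complex.I)).re < 0} with hW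
  have hvec : ∀ ζ : ℂ, th ![ζ, b] = θ := fun ζ => th_vec ζ b z rfl
  have hWmem : ∀ ζ ∈ W, (![ζ, b] : Fin 2 → ℂ) ∈ Om := by
    intro ζ hζ
    apply mem_Om_of
    · exact hz1
    · exact hζ.1.le
    · rw [hvec]; linarith
    · rw [qr_eq, hvec]
      exact hζ.2
  have hWo : IsOpen W := by
    have h1 : IsOpen {ζ : ℂ | ‖ζ‖ < 1} := isOpen_lt continuous_norm continuous_const
    have h2 : IsOpen {ζ : ℂ | (ζ * Complex.exp (-(θ : ℂ) * Complex.I)).re < 0} :=
      isOpen_lt (by fun_prop) continuous_const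
    exact h1.inter h2
  have hWc : Convex ℝ W := by
    have h1 : Convex ℝ {ζ : ℂ | ‖ζ‖ < 1} := by
      have h3 : {ζ : ℂ | ‖ζ‖ < 1} = ball (0 : ℂ) 1 := by
        ext ζ
        rw [mem_ball_zero_iff, Set.mem_ofPred_eq]
      rw [h3]
      exact convex_ball (0 : ℂ) 1
    have h2 : Convex ℝ {ζ : ℂ | (ζ * Complex.exp (-(θ : ℂ) * Complex.I)).re < 0} := by
      intro x hx y hy a c ha hc hac
      have hx : (x * Complex.exp (-(θ : ℂ) * Complex.I)).re < 0 := hx
      have hy : (y * Complex.exp (-(θ : ℂ) * Complex.I)).re < 0 := hy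
      change ((a • x + c • y) * Complex.exp (-(θ : ℂ) * Complex.I)).re < 0
      have he : (a • x + c • y) * Complex.exp (-(θ : ℂ) * Complex.I)
          = (a : ℂ) * (x * Complex.exp (-(θ : ℂ) * Complex.I))
            + (c : ℂ) * (y * Complex.exp (-(θ : ℂ) * Complex.I)) := by
        simp only [Complex.real_smul]
        ring
      rw [he, Complex.add_re, Complex.re_ofReal_mul, Complex.re_ofReal_mul]
      rcases eq_or_lt_of_le ha with h | h
      · rw [← h, zero_add] at hac
        rw [← h, hac]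
        linarith
      · nlinarith
    exact h1.inter h2
  have hFd : DifferentiableOn ℂ (fun ζ : ℂ => f ![ζ, b]) W := by
    refine DifferentiableOn.comp (t := Om) hd ?_ hWmem
    refine Differentiable.differentiableOn ?_
    rw [differentiable_pi]
    intro i
    fin_cases i
    · simp only [Fin.zero_eta, Matrix.cons_val_zero]
      fun_prop
    · simp only [Fin.mk_one, Matrix.cons_val_one, Matrix.cons_val_fin_one]
      fun_prop
  set e : ℂ := Complex.exp ((θ : ℂ) * Complex.I) with he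
  have hen : ‖e‖ = 1 := Complex.norm_exp_ofReal_mul_I θ
  have hee : e * Complex.exp (-(θ : ℂ) * Complex.I) = 1 := by
    rw [he, ← Complex.exp_add]; simp
  have hray : ∀ s : ℝ, 0 < s → s < 1 / 2 → f ![-(s : ℂ) * e, b] = 0 := by
    intro s hs hs'
    exact zero_on_ray hd hM hV hz1 hth hs hs'
  have hc : -((1 / 4 : ℝ) : ℂ) * e ∈ W := by
    refine ⟨?_, ?_⟩
    · rw [norm_mul, norm_neg, hen, Complex.norm_real, Real.norm_eq_abs, abs_of_pos (by norm_num)]
      norm_num
    · rw [mul_assoc, hee, mul_one, ← Complex.ofReal_neg, Complex.ofReal_re]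
      norm_num
  have hfreq : ∃ᶠ ζ in 𝓝[≠] (-((1 / 4 : ℝ) : ℂ) * e), f ![ζ, b] = 0 := by
    have htend : Tendsto (fun n : ℕ => -(((1 / 4 + 1 / 8 * (1 / ((n : ℝ) + 1)) : ℝ)) : ℂ) * e) atTop
        (𝓝[≠] (-((1 / 4 : ℝ) : ℂ) * e)) := by
      rw [tendsto_nhdsWithin_iff]
      constructor
      · have h1 : Tendsto (fun n : ℕ => (1 / 4 + 1 / 8 * (1 / ((n : ℝ) + 1)) : ℝ)) atTop
            (𝓝 (1 / 4 + 1 / 8 * 0)) :=
          ((tendsto_one_div_add_atTop_nhds_zero_nat (𝕜 := ℝ)).const_mul (1 / 8)).const_add (1 / 4)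
        rw [mul_zero, add_zero] at h1
        exact (((Complex.continuous_ofReal.tendsto _).comp h1).neg).mul_const e
      · refine Eventually.of_forall fun n => ?_
        simp only [mem_compl_iff, mem_singleton_iff]
        intro h
        have he0 : e ≠ 0 := Complex.exp_ne_zero _
        have h2 := mul_right_cancel₀ he0 h
        have h3 : (1 / 4 + 1 / 8 * (1 / ((n : ℝ) + 1)) : ℝ) = 1 / 4 := by
          have := neg_injective h2
          exact_mod_cast this
        have h4 : 0 < 1 / 8 * (1 / ((n : ℝ) + 1)) := by positivity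
        linarith
    refine htend.frequently (Frequently.of_forall fun n => ?_)
    apply hray
    · positivity
    · have h5 : 1 / ((n : ℝ) + 1) ≤ 1 := by
        rw [div_le_one (by positivity)]
        linarith [(Nat.cast_nonneg n : (0 : ℝ) ≤ n)]
      linarith
  have hzW : z 0 ∈ W := ⟨hz0, by rw [← qr_eq]; exact hq⟩
  have hfin := (hFd.analyticOnNhd hWo).eqOn_zero_of_preconnected_of_frequently_eq_zero
    hWc.isPreconnected hc hfreq hzW
  have hzvec : (![z 0, b] : Fin 2 → ℂ) = z := by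
    funext i
    fin_cases i <;> simp [hb]
  simpa [hzvec] using hfin

theorem f_eq_zero {f : (Fin 2 → ℂ) → ℂ} (hd : DifferentiableOn ℂ f Om) {M : ℝ}
    (hM : ∀ z ∈ Om, ‖f z‖ ≤ M) (hV : ∀ v ∈ VV, f v = 0) : ∀ z ∈ Om, f z = 0 := by
  set u : Set (Fin 2 → ℂ) := {z | z 1 ≠ 0 ∧ |th z| < 1 ∧ ‖z 0‖ < 1 ∧ qr z < 0} with hu
  have huo : IsOpen u := by
    rw [isOpen_iff_mem_nhds]
    rintro z ⟨h1, h2, h3, h4⟩
    have c1 : ContinuousAt th z := (contDiffAt_th h1).continuousAt
    have cre : ContinuousAt (fun z : Fin 2 → ℂ => (z 0).re) z := (contDiff_re 0).continuous.continuousAt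
    have cim : ContinuousAt (fun z : Fin 2 → ℂ => (z 0).im) z := (contDiff_im 0).continuous.continuousAt
    have c2 : ContinuousAt qr z := by
      unfold qr
      exact (cre.mul (Real.continuous_cos.continuousAt.comp c1)).add
        (cim.mul (Real.continuous_sin.continuousAt.comp c1))
    have c3 : ContinuousAt (fun z : Fin 2 → ℂ => z 1) z := (continuous_apply 1).continuousAt
    have c4 : ContinuousAt (fun z : Fin 2 → ℂ => ‖z 0‖) z :=
      (continuous_apply 0).norm.continuousAt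
    filter_upwards [c3.eventually_ne h1, c1.abs.eventually_lt_const h2,
      c4.eventually_lt_const h3, c2.eventually_lt_const h4] with y a1 a2 a3 a4
    exact ⟨a1, a2, a3, a4⟩
  have hmem : (![-(1 / 2), 1] : Fin 2 → ℂ) ∈ u := by
    have ht : th ![-(1 / 2), 1] = 0 := by simp [th]
    refine ⟨by simp, by rw [ht]; norm_num, ?_, ?_⟩
    · simp only [Matrix.cons_val_zero]
      rw [norm_neg, norm_div, norm_one]
      norm_num
    · rw [qr, ht]
      simp only [Matrix.cons_val_zero, Real.cos_zero, Real.sin_zero]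
      norm_num
  refine eqOn_zero_of_open isOpen_Om isConnected_Om.isPreconnected hd huo
    ⟨_, ?_, hmem⟩ ?_
  · obtain ⟨h1, h2, h3, h4⟩ := hmem
    exact mem_Om_of h1 h3.le (by linarith) h4
  · rintro z ⟨h1, h2, h3, h4⟩
    exact zero_on_slice hd hM hV h1 h2 h3 h4

end Pool.Agent.Helper53.Worm
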