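import Mathlib

/-!
# A flat convex function on the line
-/

set_option autoImplicit false

open Real Polynomial Filter Topology

namespace Pool.Agent.Helper53.Worm

/-- A smooth convex function, zero on the nonpositive half line. -/
noncomputable def g (y : ℝ) : ℝ := Real.exp (2 * y) * expNegInvGlue y

noncomputable def g1 (y : ℝ) : ℝ := Real.exp (2 * y) * (((y⁻¹) ^ 2 + 2) * expNegInvGlue y)

noncomputable def g2 (y : ℝ) : ℝ :=
  Real.exp (2 * y) * (((y⁻¹) ^ 4 - 2 * (y⁻¹) ^ 3 + 4 * (y⁻¹) ^ 2 + 4) * expNegInvGlue y)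

lemma contDiff_g : ContDiff ℝ ((⊤ : ℕ∞) : WithTop ℕ∞) g := by
  unfold g
  exact (Real.contDiff_exp.comp (contDiff_const.mul contDiff_id)).mul expNegInvGlue.contDiff

lemma g_nonneg (y : ℝ) : 0 ≤ g y := mul_nonneg (Real.exp_pos _).le (expNegInvGlue.nonneg y)

lemma g_of_nonpos {y : ℝ} (hy : y ≤ 0) : g y = 0 := by
  rw [g, expNegInvGlue.zero_of_nonpos hy, mul_zero]

lemma g1_of_nonpos {y : ℝ} (hy : y ≤ 0) : g1 y = 0 := by
  rw [g1, expNegInvGlue.zero_of_nonpos hy, mul_zero, mul_zero]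

lemma g_pos {y : ℝ} (hy : 0 < y) : 0 < g y :=
  mul_pos (Real.exp_pos _) (expNegInvGlue.pos_of_pos hy)

lemma g1_nonneg (y : ℝ) : 0 ≤ g1 y :=
  mul_nonneg (Real.exp_pos _).le (mul_nonneg (by positivity) (expNegInvGlue.nonneg y))

lemma g1_pos {y : ℝ} (hy : 0 < y) : 0 < g1 y :=
  mul_pos (Real.exp_pos _) (mul_pos (by positivity) (expNegInvGlue.pos_of_pos hy))

lemma g2_nonneg (y : ℝ) : 0 ≤ g2 y := by
  refine mul_nonneg (Real.exp_pos _).le (mul_nonneg ?_ (expNegInvGlue.nonneg y))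
  nlinarith [sq_nonneg (y⁻¹ * (y⁻¹ - 1)), sq_nonneg (y⁻¹)]

lemma two_g1_le (y : ℝ) : 2 * g1 y ≤ g y + g2 y := by
  have h : g y + g2 y - 2 * g1 y
      = Real.exp (2 * y) * (((y⁻¹ * (y⁻¹ - 1)) ^ 2 + (y⁻¹) ^ 2 + 1) * expNegInvGlue y) := by
    unfold g g1 g2
    ring
  have h2 : 0 ≤ Real.exp (2 * y) * (((y⁻¹ * (y⁻¹ - 1)) ^ 2 + (y⁻¹) ^ 2 + 1) * expNegInvGlue y) :=
    mul_nonneg (Real.exp_pos _).le (mul_nonneg (by positivity) (expNegInvGlue.nonneg y))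
  linarith

lemma hasDerivAt_exp_two (y : ℝ) :
    HasDerivAt (fun y : ℝ => Real.exp (2 * y)) (Real.exp (2 * y) * 2) y := by
  have h : HasDerivAt (fun y : ℝ => 2 * y) 2 y := by simpa using (hasDerivAt_id y).const_mul 2
  exact h.exp

lemma hasDerivAt_g (y : ℝ) : HasDerivAt g (g1 y) y := by
  have h := expNegInvGlue.hasDerivAt_polynomial_eval_inv_mul (1 : ℝ[X]) y
  have h2 := (hasDerivAt_exp_two y).mul h
  have he : g = (fun y => Real.exp (2 * y)) *
      fun x => eval x⁻¹ (1 : ℝ[X]) * expNegInvGlue x := by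
    funext x
    simp [g]
  rw [he]
  refine h2.congr_deriv ?_
  simp [g1]
  ring

lemma hasDerivAt_g1 (y : ℝ) : HasDerivAt g1 (g2 y) y := by
  have h := expNegInvGlue.hasDerivAt_polynomial_eval_inv_mul (X ^ 2 + C 2 : ℝ[X]) y
  have h2 := (hasDerivAt_exp_two y).mul h
  have he : g1 = (fun y => Real.exp (2 * y)) *
      fun x => eval x⁻¹ (X ^ 2 + C 2 : ℝ[X]) * expNegInvGlue x := by
    funext x
    simp [g1]
  rw [he]
  refine h2.congr_deriv ?_
  simp [g2]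
  ring

lemma deriv_g : deriv g = g1 := by
  ext y
  exact (hasDerivAt_g y).deriv

lemma monotone_g : Monotone g :=
  monotone_of_deriv_nonneg (fun y => (hasDerivAt_g y).differentiableAt)
    (fun y => by rw [deriv_g]; exact g1_nonneg y)

lemma convexOn_g : ConvexOn ℝ Set.univ g := by
  refine convexOn_univ_of_deriv2_nonneg (fun y => (hasDerivAt_g y).differentiableAt) ?_ ?_
  · rw [deriv_g]
    exact fun y => (hasDerivAt_g1 y).differentiableAt
  · intro y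
    rw [Function.iterate_succ, Function.iterate_one, Function.comp_apply, deriv_g,
      (hasDerivAt_g1 y).deriv]
    exact g2_nonneg y

/-- `X λ'(X) ≥ λ(X)` for `λ(X) = g (X - 1)`. -/
lemma g_le_mul_g1 {X : ℝ} (hX : 0 ≤ X) : g (X - 1) ≤ X * g1 (X - 1) := by
  rcases le_or_gt (X - 1) 0 with h | h
  · rw [g_of_nonpos h, g1_of_nonpos h, mul_zero]
  · have h1 : g1 (X - 1) = g (X - 1) * (((X - 1)⁻¹) ^ 2 + 2) := by
      unfold g g1; ring
    rw [h1]
    have h2 : 1 ≤ X * (((X - 1)⁻¹) ^ 2 + 2) := by nlinarith [sq_nonneg ((X - 1)⁻¹)]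
    nlinarith [g_nonneg (X - 1)]

lemma g_ge {y : ℝ} (hy : 1 ≤ y) : Real.exp (2 * y - 1) ≤ g y := by
  have hy0 : 0 < y := by linarith
  have h1 : expNegInvGlue y = Real.exp (-y⁻¹) := by
    rw [expNegInvGlue, if_neg (not_le.mpr hy0)]
  rw [g, h1, ← Real.exp_add]
  apply Real.exp_le_exp.mpr
  have : y⁻¹ ≤ 1 := inv_le_one_of_one_le₀ hy
  linarith

lemma two_mul_le_g {y : ℝ} (hy : 1 ≤ y) : 2 * y ≤ g y := by
  have := Real.add_one_le_exp (2 * y - 1)
  linarith [g_ge hy]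

/-- For `r ≥ 2`, `λ(r²) ≥ 2 r`. -/
lemma lam_ge {r : ℝ} (hr : 2 ≤ r) : 2 * r ≤ g (r ^ 2 - 1) := by
  have h : 1 ≤ r ^ 2 - 1 := by nlinarith
  have := two_mul_le_g h
  nlinarith

end Pool.Agent.Helper53.Worm
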