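import Pool.Agent.Helper53.Worm.Deriv

/-!
# Levi form of the defining function
-/

set_option autoImplicit false

open Filter Topology

namespace Pool.Agent.Helper53.Worm

lemma e1_eq_zero {θ : ℝ} (h : g1 (θ - 2) - g1 (-θ - 2) = 0) : g (θ - 2) + g (-θ - 2) = 0 := by
  rcases lt_trichotomy (θ - 2) 0 with h1 | h1 | h1
  · rcases le_or_gt (-θ - 2) 0 with h2 | h2
    · rw [g_of_nonpos h1.le, g_of_nonpos h2, add_zero]
    · exfalso
      rw [g1_of_nonpos h1.le] at h
      have := g1_pos h2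
      linarith
  · have h2 : -θ - 2 ≤ 0 := by linarith
    rw [h1, g_of_nonpos le_rfl, g_of_nonpos h2, add_zero]
  · exfalso
    have h2 : -θ - 2 ≤ 0 := by linarith
    rw [g1_of_nonpos h2] at h
    have := g1_pos h1
    linarith

lemma e1_bound (θ : ℝ) : 2 * |g1 (θ - 2) - g1 (-θ - 2)| ≤
    (g (θ - 2) + g (-θ - 2)) + (g2 (θ - 2) + g2 (-θ - 2)) := by
  have h1 := two_g1_le (θ - 2)
  have h2 := two_g1_le (-θ - 2)
  have h3 : |g1 (θ - 2) - g1 (-θ - 2)| ≤ g1 (θ - 2) + g1 (-θ - 2) := by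
    rw [abs_le]
    constructor <;> linarith [g1_nonneg (θ - 2), g1_nonneg (-θ - 2)]
  linarith

lemma nondegenerate {x v l0 l1 e0 e1 : ℝ} (hbd : 2 * x + l0 + e0 = 0) (hl0 : 0 ≤ l0)
    (hl : l0 ≤ (x ^ 2 + v ^ 2) * l1) (he : e1 = 0 → e0 = 0) :
    1 + l1 * x ≠ 0 ∨ l1 * v ≠ 0 ∨ 2 * v + e1 ≠ 0 := by
  by_contra hcon
  push Not at hcon
  obtain ⟨h1, h2, h3⟩ := hcon
  have hl1 : l1 ≠ 0 := by
    rintro rfl
    norm_num at h1
  have hv : v = 0 := (mul_eq_zero.mp h2).resolve_left hl1
  have he1 : e1 = 0 := by rw [hv] at h3; linarith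
  have he0 := he he1
  rw [hv] at hl
  have h4 : l1 * x = -1 := by linarith
  have h5 : (x ^ 2 + 0 ^ 2) * l1 = -x := by
    linear_combination x * h4
  have h6 : x = 0 := by linarith
  rw [h6] at h1
  norm_num at h1

lemma normSq_y0 (y : Fin 2 → ℂ) : Complex.normSq (y 0) = qr y ^ 2 + qi y ^ 2 := by
  have h := Real.cos_sq_add_sin_sq (th y)
  rw [Complex.normSq_apply, qr, qi]
  linear_combination (-(y 0).re ^ 2 - (y 0).im ^ 2) * h

/-- The main pointwise computation: the Levi form is nonnegative on the complex tangent space. -/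
theorem levi_nonneg {y : Fin 2 → ℂ} (hy : y 1 ≠ 0) (hb : rho0 y = 0) (w : Fin 2 → ℂ)
    (h1 : D y w = 0) (h2 : D y (Complex.I • w) = 0) :
    0 ≤ S y w + S y (Complex.I • w) := by
  have hN : Complex.normSq (y 1) ≠ 0 := by simpa using hy
  have hcs := Real.cos_sq_add_sin_sq (th y)
  set N := Complex.normSq (y 1) with hNdef
  set c := Real.cos (th y) with hc
  set s := Real.sin (th y) with hs
  set x := qr y with hx
  set v := qi y with hv
  set a := (w 0).re with ha
  set b := (w 0).im with hbd'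
  set β := ((y 1).re * (w 1).re + (y 1).im * (w 1).im) / N with hβ
  set γ := -((-(y 1).re * (w 1).im + (y 1).im * (w 1).re) / N) with hγ
  set l0 := g (Complex.normSq (y 0) - 1) with hl0
  set l1 := g1 (Complex.normSq (y 0) - 1) with hl1
  set l2 := g2 (Complex.normSq (y 0) - 1) with hl2
  set e0 := g (th y - 2) + g (-th y - 2) with he0
  set e1 := g1 (th y - 2) - g1 (-th y - 2) with he1
  set e2 := g2 (th y - 2) + g2 (-th y - 2) with he2
  have hX : Complex.normSq (y 0) = x ^ 2 + v ^ 2 := normSq_y0 y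
  have hxv : x = (y 0).re * c + (y 0).im * s := rfl
  have hvv : v = -(y 0).re * s + (y 0).im * c := rfl
  have hre : (y 0).re = x * c - v * s := by
    rw [hxv, hvv]; linear_combination (-(y 0).re) * hcs
  have him : (y 0).im = x * s + v * c := by
    rw [hxv, hvv]; linear_combination (-(y 0).im) * hcs
  have ht1 : th1 y w = 2 * β := rfl
  have ht1i : th1 y (Complex.I • w) = -(2 * γ) := by
    simp only [th1, Pi.smul_apply, smul_eq_mul, Complex.mul_re, Complex.mul_im, Complex.I_re,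
      Complex.I_im, hγ]
    ring
  have hn : (y 1).re * (w 1).re + (y 1).im * (w 1).im = β * N := by
    rw [hβ]; field_simp
  have hm : -(y 1).re * (w 1).im + (y 1).im * (w 1).re = -(γ * N) := by
    rw [hγ]; field_simp
  have hw1 : Complex.normSq (w 1) = (β ^ 2 + γ ^ 2) * N := by
    have h3 : ((y 1).re * (w 1).re + (y 1).im * (w 1).im) ^ 2
        + (-(y 1).re * (w 1).im + (y 1).im * (w 1).re) ^ 2 = N * Complex.normSq (w 1) := by
      rw [hNdef, Complex.normSq_apply, Complex.normSq_apply]; ring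
    rw [hn, hm] at h3
    apply mul_left_cancel₀ hN
    linear_combination -h3
  have ht2 : th2 y w = 2 * (γ ^ 2 - β ^ 2) := by
    rw [th2, hn, hw1, ← hNdef]
    field_simp
    ring
  have ht2i : th2 y (Complex.I • w) = 2 * (β ^ 2 - γ ^ 2) := by
    have h4 : Complex.normSq ((Complex.I • w) 1) = Complex.normSq (w 1) := by
      simp
    have h5 : (y 1).re * ((Complex.I • w) 1).re + (y 1).im * ((Complex.I • w) 1).im
        = -(γ * N) := by
      rw [← hm]
      simp
    rw [th2, h5, h4, hw1, ← hNdef]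
    field_simp
    ring
  have hIre : ((Complex.I • w) 0).re = -b := by simp [hbd']
  have hIim : ((Complex.I • w) 0).im = a := by simp [ha]
  have hIn : Complex.normSq ((Complex.I • w) 0) = Complex.normSq (w 0) := by simp
  have hw0 : Complex.normSq (w 0) = a ^ 2 + b ^ 2 := by
    rw [Complex.normSq_apply]; ring
  set W1 := a * c + b * s with hW1
  set W2 := -a * s + b * c with hW2
  have hWW : a ^ 2 + b ^ 2 = W1 ^ 2 + W2 ^ 2 := by
    rw [hW1, hW2]; linear_combination (-a ^ 2 - b ^ 2) * hcs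
  have hip : (y 0).re * a + (y 0).im * b = x * W1 + v * W2 := by
    rw [hre, him, hW1, hW2]; ring
  have hipi : (y 0).re * (-b) + (y 0).im * a = -x * W2 + v * W1 := by
    rw [hre, him, hW1, hW2]; ring
  have hqr1 : qr1 y w = W1 + v * (2 * β) := by
    rw [qr1, ht1]
  have hqr1i : qr1 y (Complex.I • w) = -W2 - v * (2 * γ) := by
    rw [qr1, ht1i, hIre, hIim, hW2]
    ring
  have hqi1 : qi1 y w = W2 - x * (2 * β) := by
    rw [qi1, ht1]
  have hqi1i : qi1 y (Complex.I • w) = W1 + x * (2 * γ) := by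
    rw [qi1, ht1i, hIre, hIim, hW1]
    ring
  have hD1 : (1 + l1 * x) * W1 + l1 * v * W2 + (2 * v + e1) * β = 0 := by
    rw [D, hqr1, ht1, hip] at h1
    linear_combination h1 / 2
  have hD2 : (1 + l1 * x) * W2 - l1 * v * W1 + (2 * v + e1) * γ = 0 := by
    rw [D, hqr1i, ht1i, hIre, hIim, hipi] at h2
    linear_combination -h2 / 2
  have hb' : 2 * x + l0 + e0 = 0 := hb
  have halg := levi_algebra x v W1 W2 β γ l0 l1 l2 e0 e1 e2 hb' (g_nonneg _) (g1_nonneg _)
    (g2_nonneg _) (add_nonneg (g_nonneg _) (g_nonneg _)) (add_nonneg (g2_nonneg _) (g2_nonneg _))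
    (by
      have := e1_bound (th y)
      have h0 : 0 ≤ l0 := g_nonneg _
      linarith)
    (nondegenerate hb' (g_nonneg _)
      (by
        rw [← hX]
        exact g_le_mul_g1 (Complex.normSq_nonneg _))
      (fun h => e1_eq_zero h)) hD1 hD2
  have hsum : S y w + S y (Complex.I • w) = 4 * (2 * (W2 * β - W1 * γ) - 2 * x * (β ^ 2 + γ ^ 2)
      + ((x ^ 2 + v ^ 2) * l2 + l1) * (W1 ^ 2 + W2 ^ 2) + e2 * (β ^ 2 + γ ^ 2)) := by
    rw [S, S, hIn, hIre, hIim, ht1, ht1i, ht2, ht2i, hqi1, hqi1i, hip, hipi, hw0, hWW]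
    have h6 : -a * Real.sin (th y) + b * Real.cos (th y) = W2 := rfl
    have h7 : -(-b) * Real.sin (th y) + a * Real.cos (th y) = W1 := by
      rw [hW1, hc, hs]; ring
    rw [h6, h7]
    ring
  rw [hsum]
  linarith

end Pool.Agent.Helper53.Worm
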