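import Pool.Agent.Helper53.Worm.Connected

/-!
# A closed boundary for the algebra `A(Ω)` that misses the flat part
-/

set_option autoImplicit false

open Filter Topology Set Metric

namespace Pool.Agent.Helper53.Worm

/-- A closed subset of `closure Om` on which all functions of `A(Om)` attain their maximum. -/
def KK : Set (Fin 2 → ℂ) :=
  closure Om ∩ ({z | 3 / 4 ≤ ‖z 0‖} ∪ {z | Real.exp (9 / 5) ≤ Complex.normSq (z 1)}
    ∪ {z | Complex.normSq (z 1) ≤ Real.exp (-(9 / 5))})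

lemma isClosed_KK : IsClosed KK := by
  refine isClosed_closure.inter ((IsClosed.union ?_ ?_).union ?_)
  · exact isClosed_le continuous_const (by fun_prop)
  · exact isClosed_le continuous_const (contDiff_normSq 1).continuous
  · exact isClosed_le (contDiff_normSq 1).continuous continuous_const

lemma qr_eq (z : Fin 2 → ℂ) : qr z = (z 0 * Complex.exp (-(th z : ℂ) * Complex.I)).re := by
  rw [Complex.exp_mul_I, Complex.cos_neg, Complex.sin_neg, ← Complex.ofReal_cos,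
    ← Complex.ofReal_sin, qr]
  simp [Complex.mul_re, Complex.cos_ofReal_re, Complex.sin_ofReal_re]

/-- Local holomorphic discs along the leaves (for `ε = 0`), pushed inside for `ε > 0`. -/
noncomputable def phi (p : Fin 2 → ℂ) (ε : ℝ) (ζ : ℂ) : Fin 2 → ℂ :=
  ![(p 0 - ε * Complex.exp ((th p : ℂ) * Complex.I)) * Complex.exp (2 * Complex.I * ζ),
    p 1 * Complex.exp ζ]

lemma normSq_phi_one (p : Fin 2 → ℂ) (ε : ℝ) (ζ : ℂ) :
    Complex.normSq (phi p ε ζ 1) = Complex.normSq (p 1) * Real.exp (2 * ζ.re) := by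
  have h : phi p ε ζ 1 = p 1 * Complex.exp ζ := rfl
  rw [h, map_mul, Complex.normSq_eq_norm_sq (Complex.exp ζ), Complex.norm_exp, ← Real.exp_nat_mul]
  push_cast
  ring_nf

lemma th_phi {p : Fin 2 → ℂ} (hp : p 1 ≠ 0) (ε : ℝ) (ζ : ℂ) :
    th (phi p ε ζ) = th p + 2 * ζ.re := by
  rw [th, normSq_phi_one, Real.log_mul (by simpa using hp) (Real.exp_pos _).ne', Real.log_exp, th]

lemma norm_phi_zero (p : Fin 2 → ℂ) (ε : ℝ) (ζ : ℂ) :
    ‖phi p ε ζ 0‖ = ‖p 0 - ε * Complex.exp ((th p : ℂ) * Complex.I)‖ * Real.exp (-2 * ζ.im) := by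
  have h : phi p ε ζ 0
    = (p 0 - ε * Complex.exp ((th p : ℂ) * Complex.I)) * Complex.exp (2 * Complex.I * ζ) := rfl
  rw [h, norm_mul, Complex.norm_exp]
  congr 2
  simp

lemma qr_phi {p : Fin 2 → ℂ} (hp : p 1 ≠ 0) (ε : ℝ) (ζ : ℂ) :
    qr (phi p ε ζ) = (qr p - ε) * Real.exp (-2 * ζ.im) := by
  have h : phi p ε ζ 0
    = (p 0 - ε * Complex.exp ((th p : ℂ) * Complex.I)) * Complex.exp (2 * Complex.I * ζ) := rfl
  rw [qr_eq, th_phi hp, h]
  have h2 : (p 0 - ε * Complex.exp ((th p : ℂ) * Complex.I)) * Complex.exp (2 * Complex.I * ζ)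
      * Complex.exp (-((th p + 2 * ζ.re : ℝ) : ℂ) * Complex.I)
      = (p 0 * Complex.exp (-(th p : ℂ) * Complex.I) - ε) * ((Real.exp (-2 * ζ.im) : ℝ) : ℂ) := by
    have h3 : Complex.exp (2 * Complex.I * ζ) * Complex.exp (-((th p + 2 * ζ.re : ℝ) : ℂ) * Complex.I)
        = Complex.exp (-(th p : ℂ) * Complex.I) * ((Real.exp (-2 * ζ.im) : ℝ) : ℂ) := by
      rw [← Complex.exp_add, Complex.ofReal_exp, ← Complex.exp_add]
      congr 1
      apply Complex.ext <;> simp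
    have h4 : Complex.exp ((th p : ℂ) * Complex.I) * Complex.exp (-(th p : ℂ) * Complex.I) = 1 := by
      rw [← Complex.exp_add]
      simp
    rw [mul_assoc, h3]
    linear_combination (-(ε : ℂ) * ((Real.exp (-2 * ζ.im) : ℝ) : ℂ)) * h4
  rw [h2, Complex.re_mul_ofReal, Complex.sub_re, Complex.ofReal_re, ← qr_eq]

lemma exp_tenth : Real.exp (1 / 10) < 10 / 9 + 1 / 100 := by
  have h := Real.add_one_le_exp (-(1 / 10) : ℝ)
  have h2 : Real.exp (1 / 10) * Real.exp (-(1 / 10)) = 1 := by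
    rw [← Real.exp_add]; norm_num
  have h3 := Real.exp_pos (1 / 10)
  nlinarith

lemma abs_re_le_of_mem {ζ : ℂ} (h : ‖ζ‖ ≤ 1 / 20) : |ζ.re| ≤ 1 / 20 :=
  (Complex.abs_re_le_norm ζ).trans h

lemma abs_im_le_of_mem {ζ : ℂ} (h : ‖ζ‖ ≤ 1 / 20) : |ζ.im| ≤ 1 / 20 :=
  (Complex.abs_im_le_norm ζ).trans h

lemma exp_im_le {ζ : ℂ} (h : ‖ζ‖ ≤ 1 / 20) : Real.exp (-2 * ζ.im) < 10 / 9 + 1 / 100 := by
  have h1 := abs_im_le_of_mem h
  have h2 : Real.exp (-2 * ζ.im) ≤ Real.exp (1 / 10) := by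
    apply Real.exp_le_exp.mpr
    have := (abs_le.mp h1).1
    linarith
  exact lt_of_le_of_lt h2 exp_tenth

lemma rho0_flat {z : Fin 2 → ℂ} (h0 : ‖z 0‖ ≤ 1) (h1 : |th z| ≤ 2) : rho0 z = 2 * qr z := by
  have h2 := abs_le.mp h1
  rw [rho0, g_of_nonpos (y := Complex.normSq (z 0) - 1), g_of_nonpos (y := th z - 2),
    g_of_nonpos (y := -th z - 2)]
  · ring
  · linarith
  · linarith
  · rw [Complex.normSq_eq_norm_sq]
    nlinarith [norm_nonneg (z 0)]

lemma phi_mem_Om {p : Fin 2 → ℂ} (hp : p 1 ≠ 0) (hp0 : ‖p 0‖ < 3 / 4) (hth : |th p| < 9 / 5)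
    (hq : qr p ≤ 0) {ε : ℝ} (hε : 0 < ε) (hε' : ε ≤ 1 / 100) {ζ : ℂ} (hζ : ‖ζ‖ ≤ 1 / 20) :
    phi p ε ζ ∈ Om := by
  apply rho_neg_iff.mpr
  have h1 : phi p ε ζ 1 ≠ 0 := by
    have h : phi p ε ζ 1 = p 1 * Complex.exp ζ := rfl
    rw [h]
    exact mul_ne_zero hp (Complex.exp_ne_zero _)
  refine ⟨h1, ?_⟩
  rw [rho0_flat]
  · rw [qr_phi hp]
    have := Real.exp_pos (-2 * ζ.im)
    nlinarith
  · rw [norm_phi_zero]
    have h2 : ‖p 0 - ε * Complex.exp ((th p : ℂ) * Complex.I)‖ ≤ 3 / 4 + 1 / 100 := by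
      refine (norm_sub_le _ _).trans ?_
      rw [norm_mul, Complex.norm_exp_ofReal_mul_I, Complex.norm_real, Real.norm_eq_abs,
        abs_of_pos hε]
      linarith
    have h3 := exp_im_le hζ
    have h4 := Real.exp_pos (-2 * ζ.im)
    nlinarith [norm_nonneg (p 0 - ε * Complex.exp ((th p : ℂ) * Complex.I))]
  · rw [th_phi hp]
    have h2 := abs_re_le_of_mem hζ
    rw [abs_le] at *
    rw [abs_lt] at hth
    constructor <;> linarith [hth.1, hth.2, h2.1, h2.2]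

lemma continuous_phi_eps (p : Fin 2 → ℂ) (ζ : ℂ) : Continuous (fun ε : ℝ => phi p ε ζ) := by
  unfold phi
  refine continuous_pi fun i => ?_
  fin_cases i
  · simp only [Fin.zero_eta, Matrix.cons_val_zero]
    fun_prop
  · simp only [Fin.mk_one, Matrix.cons_val_one]
    fun_prop

lemma phi_zero_mem {p : Fin 2 → ℂ} (hp : p 1 ≠ 0) (hp0 : ‖p 0‖ < 3 / 4) (hth : |th p| < 9 / 5)
    (hq : qr p ≤ 0) {ζ : ℂ} (hζ : ‖ζ‖ ≤ 1 / 20) :
    phi p 0 ζ ∈ closure Om := by
  have hc : Tendsto (fun ε : ℝ => phi p ε ζ) (𝓝[>] 0) (𝓝 (phi p 0 ζ)) :=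
    ((continuous_phi_eps p ζ).tendsto 0).mono_left nhdsWithin_le_nhds
  apply mem_closure_of_tendsto hc
  have h1 : ∀ᶠ ε : ℝ in 𝓝[>] 0, ε ∈ Ioc (0 : ℝ) (1 / 100) :=
    Ioc_mem_nhdsGT (by norm_num)
  filter_upwards [h1] with ε hε
  exact phi_mem_Om hp hp0 hth hq hε.1 hε.2 hζ

lemma differentiable_phi (p : Fin 2 → ℂ) (ε : ℝ) : Differentiable ℂ (phi p ε) := by
  rw [differentiable_pi]
  intro i
  fin_cases i
  · simp only [phi, Fin.zero_eta, Matrix.cons_val_zero]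
    fun_prop
  · simp only [phi, Fin.mk_one, Matrix.cons_val_one, Matrix.cons_val_fin_one]
    fun_prop

lemma dist_phi_le (p : Fin 2 → ℂ) {ε : ℝ} (hε : 0 ≤ ε) {ζ : ℂ} (hζ : ‖ζ‖ ≤ 1 / 20) :
    dist (phi p 0 ζ) (phi p ε ζ) ≤ 2 * ε := by
  rw [dist_pi_le_iff (by positivity)]
  intro i
  fin_cases i
  · simp only [phi, Fin.zero_eta, Matrix.cons_val_zero]
    rw [dist_eq_norm]
    have h : (p 0 - ((0 : ℝ) : ℂ) * Complex.exp ((th p : ℂ) * Complex.I))
        * Complex.exp (2 * Complex.I * ζ)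
        - (p 0 - (ε : ℂ) * Complex.exp ((th p : ℂ) * Complex.I)) * Complex.exp (2 * Complex.I * ζ)
        = (ε : ℂ) * Complex.exp ((th p : ℂ) * Complex.I) * Complex.exp (2 * Complex.I * ζ) := by
      push_cast
      ring
    rw [h, norm_mul, norm_mul, Complex.norm_exp_ofReal_mul_I, Complex.norm_real, Real.norm_eq_abs,
      abs_of_nonneg hε, Complex.norm_exp]
    have h2 : (2 * Complex.I * ζ).re = -2 * ζ.im := by simp
    rw [h2]
    have h3 := exp_im_le hζ
    nlinarith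
  · simp only [phi, Fin.mk_one, Matrix.cons_val_one, Matrix.cons_val_fin_one, dist_self]
    positivity

lemma isCompact_closure_Om : IsCompact (closure Om) :=
  isBounded_Om.isCompact_closure

/-- For `p` in the flat part, `f` composed with the leaf disc is holomorphic. -/
lemma differentiableOn_comp_phi {f : (Fin 2 → ℂ) → ℂ} (hc : ContinuousOn f (closure Om))
    (hd : DifferentiableOn ℂ f Om) {p : Fin 2 → ℂ} (hp : p 1 ≠ 0) (hp0 : ‖p 0‖ < 3 / 4)
    (hth : |th p| < 9 / 5) (hq : qr p ≤ 0) :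
    DifferentiableOn ℂ (fun ζ => f (phi p 0 ζ)) (ball 0 (1 / 20)) := by
  have huc := isCompact_closure_Om.uniformContinuousOn_of_continuous hc
  set e : ℕ → ℝ := fun n => 1 / 100 / (n + 1) with he
  have he0 : ∀ n, 0 < e n := fun n => by positivity
  have he1 : ∀ n, e n ≤ 1 / 100 := by
    intro n
    apply div_le_self (by norm_num)
    linarith [(Nat.cast_nonneg n : (0 : ℝ) ≤ n)]
  have hlim : Tendsto e atTop (𝓝 0) := by
    have := (tendsto_one_div_add_atTop_nhds_zero_nat (𝕜 := ℝ)).const_mul (1 / 100)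
    rw [mul_zero] at this
    refine this.congr fun n => ?_
    rw [he]
    ring
  have hunif : TendstoUniformlyOn (fun n ζ => f (phi p (e n) ζ)) (fun ζ => f (phi p 0 ζ)) atTop
      (ball 0 (1 / 20)) := by
    rw [Metric.tendstoUniformlyOn_iff]
    intro δ hδ
    rw [Metric.uniformContinuousOn_iff] at huc
    obtain ⟨η, hη, hη2⟩ := huc δ hδ
    have hev : ∀ᶠ n in atTop, e n < η / 2 := hlim.eventually_lt_const (by positivity)
    filter_upwards [hev] with n hn ζ hζ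
    have hζ' : ‖ζ‖ ≤ 1 / 20 := by
      have := mem_ball_zero_iff.mp hζ
      exact this.le
    apply hη2 _ (phi_zero_mem hp hp0 hth hq hζ') _
      (subset_closure (phi_mem_Om hp hp0 hth hq (he0 n) (he1 n) hζ'))
    refine lt_of_le_of_lt (dist_phi_le p (he0 n).le hζ') ?_
    linarith
  refine hunif.tendstoLocallyUniformlyOn.differentiableOn ?_ isOpen_ball
  refine Eventually.of_forall fun n => ?_
  refine DifferentiableOn.comp (t := Om) hd (differentiable_phi p (e n)).differentiableOn ?_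
  intro ζ hζ
  have hζ' : ‖ζ‖ ≤ 1 / 20 := by
    have := mem_ball_zero_iff.mp hζ
    exact this.le
  exact phi_mem_Om hp hp0 hth hq (he0 n) (he1 n) hζ'

theorem KK_boundary (f : (Fin 2 → ℂ) → ℂ) (hc : ContinuousOn f (closure Om))
    (hd : DifferentiableOn ℂ f Om) : ∃ k ∈ KK, ∀ z ∈ closure Om, ‖f z‖ ≤ ‖f k‖ := by
  have hcomp := isCompact_closure_Om
  have hne : (closure Om).Nonempty := isConnected_Om.nonempty.closure
  obtain ⟨p0, hp0, hmax⟩ := hcomp.exists_isMaxOn hne hc.norm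
  by_contra hcon
  push Not at hcon
  set T : Set (Fin 2 → ℂ) := closure Om ∩ (fun z => ‖f z‖) ⁻¹' (Ici ‖f p0‖) with hT
  have hTclosed : IsClosed T :=
    hc.norm.preimage_isClosed_of_isClosed isClosed_closure isClosed_Ici
  have hTcomp : IsCompact T := hcomp.of_isClosed_subset hTclosed inter_subset_left
  have hTne : T.Nonempty := ⟨p0, hp0, le_refl ‖f p0‖⟩
  obtain ⟨p, hpT, hpmax⟩ := hTcomp.exists_isMaxOn hTne
    (contDiff_normSq 1).continuous.continuousOn
  have hpmem : p ∈ closure Om := hpT.1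
  have hpval : ∀ z ∈ closure Om, ‖f z‖ ≤ ‖f p‖ := fun z hz => (hmax hz).trans hpT.2
  have hpK : p ∉ KK := by
    intro h
    obtain ⟨z, hz, hz2⟩ := hcon p h
    exact absurd (hpval z hz) (not_le.mpr hz2)
  have hr : rho p ≤ 0 := closure_Om_subset hpmem
  obtain ⟨hp1, -, -, hr0⟩ := of_rho_nonpos hr
  have hN : 0 < Complex.normSq (p 1) := Complex.normSq_pos.mpr hp1
  have h1 : ‖p 0‖ < 3 / 4 := by
    by_contra h
    exact hpK ⟨hpmem, Or.inl (Or.inl (not_lt.mp h))⟩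
  have h2 : Complex.normSq (p 1) < Real.exp (9 / 5) := by
    by_contra h
    exact hpK ⟨hpmem, Or.inl (Or.inr (not_lt.mp h))⟩
  have h3 : Real.exp (-(9 / 5)) < Complex.normSq (p 1) := by
    by_contra h
    exact hpK ⟨hpmem, Or.inr (not_lt.mp h)⟩
  have hth : |th p| < 9 / 5 := by
    rw [abs_lt]
    exact ⟨(Real.lt_log_iff_exp_lt hN).mpr h3, (Real.log_lt_iff_lt_exp hN).mpr h2⟩
  have hq : qr p ≤ 0 := by
    rw [hr0, rho0_flat (by linarith) (by linarith)] at hr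
    linarith
  have hdiff := differentiableOn_comp_phi hc hd hp1 h1 hth hq
  have hphi0 : phi p 0 0 = p := by
    funext i
    fin_cases i <;> simp [phi]
  have hm : IsMaxOn (norm ∘ fun ζ => f (phi p 0 ζ)) (ball (0 : ℂ) (1 / 20)) 0 := by
    intro ζ hζ
    simp only [Function.comp_apply, Set.mem_ofPred_eq]
    rw [hphi0]
    have hζ' : ‖ζ‖ ≤ 1 / 20 := by
      have := mem_ball_zero_iff.mp hζ
      exact this.le
    exact hpval _ (phi_zero_mem hp1 h1 hth hq hζ')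
  have heq := Complex.norm_eqOn_of_isPreconnected_of_isMaxOn
    (convex_ball (0 : ℂ) (1 / 20)).isPreconnected isOpen_ball hdiff
    (mem_ball_self (by norm_num)) hm
  have hmem : ((1 / 40 : ℝ) : ℂ) ∈ ball (0 : ℂ) (1 / 20) := by
    rw [mem_ball_zero_iff, Complex.norm_real, Real.norm_eq_abs, abs_of_pos (by norm_num)]
    norm_num
  have h4 := heq hmem
  simp only [Function.comp_apply, Function.const_apply] at h4
  rw [hphi0] at h4
  have hζ' : ‖((1 / 40 : ℝ) : ℂ)‖ ≤ 1 / 20 := (mem_ball_zero_iff.mp hmem).le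
  have hq4 : phi p 0 ((1 / 40 : ℝ) : ℂ) ∈ T := by
    refine ⟨phi_zero_mem hp1 h1 hth hq hζ', ?_⟩
    simp only [mem_preimage, mem_Ici]
    rw [h4]
    exact hpT.2
  have h5 := hpmax hq4
  simp only [Set.mem_ofPred_eq] at h5
  rw [normSq_phi_one, Complex.ofReal_re] at h5
  have h6 : 1 < Real.exp (2 * (1 / 40)) := Real.one_lt_exp_iff.mpr (by norm_num)
  nlinarith

end Pool.Agent.Helper53.Worm
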